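import Pool.Agent.MP_826def_gt.BE.Basic
import Pool.Agent.MP_57541a_gt.H19.Null
import Pool.Agent.MP_57541a_gt.H14.Hom
import Pool.Agent.MP_57541a_gt.H67.ModP

/-! The sum of the signs of the Jacobians depends only on the values outside a compact set. -/

namespace Pool.Agent.MP_826def_gt.BE

open MeasureTheory Metric Set Filter Topology Pool.Agent.MP_57541a_gt
open Pool.Agent.MP_57541a_gt.H20 Pool.Agent.MP_57541a_gt.H14 Pool.Agent.MP_57541a_gt.H67
open scoped NNReal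

namespace B0

variable {d : ℕ}

/-- The degree integral does not change along a segment that misses the support near the
boundary. -/
theorem cut {γ : Fin d → ℝ → ℝ} {G₀ G₁ : E d → E d} {K₀ K₁ : ℝ≥0} {K U : Set (E d)} (hγ : Dens γ)
    (h0 : LipschitzWith K₀ G₀) (h1 : LipschitzWith K₁ G₁) (hK : IsCompact K) (hU : IsOpen U)
    (hb : Bornology.IsBounded U) (hKU : K ⊆ U)
    (hz : ∀ z ∈ U, z ∉ K → ∀ t ∈ Icc (0 : ℝ) 1, ∏ i, γ i ((G₀ z + t • (G₁ z - G₀ z)) i) = 0) :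
    dI γ G₀ U = dI γ G₁ U := by
  have z1 : ∀ z ∈ U, z ∉ K → ∏ i, γ i (G₁ z i) = 0 := fun z a b => by
    have := hz z a b 1 ⟨zero_le_one, le_rfl⟩
    rwa [one_smul, add_sub_cancel] at this
  rcases K.eq_empty_or_nonempty with rfl | hne
  · refine setIntegral_congr_fun hU.measurableSet fun x hx => ?_
    have a := hz x hx (notMem_empty x) 0 ⟨le_rfl, zero_le_one⟩
    rw [zero_smul, add_zero] at a
    simp only [a, z1 x hx (notMem_empty x), zero_mul]
  obtain ⟨δ, δ0, hδ⟩ := hK.exists_thickening_subset_open hU hKU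
  let η : E d → ℝ := fun z => max 0 (min 1 (2 / δ * (δ - infDist z K)))
  have η0 : ∀ z, 0 ≤ η z := fun z => le_max_left _ _
  have η1 : ∀ z, η z ≤ 1 := fun z => max_le zero_le_one (min_le_left _ _)
  have ηo : ∀ z, z ∉ U → η z = 0 := fun z hz => max_eq_left ((min_le_right _ _).trans
    (mul_nonpos_of_nonneg_of_nonpos (by positivity) (sub_nonpos.2 (not_lt.1 fun h =>
      hz (hδ ((mem_thickening_iff_infDist_lt hne).2 h))))))
  have ηi : ∀ z, infDist z K < δ / 2 → η z = 1 := fun z hz => by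
    have : 1 ≤ 2 / δ * (δ - infDist z K) := by
      rw [div_mul_eq_mul_div, le_div_iff₀ δ0]
      linarith
    simp only [η, min_eq_left this, max_eq_right (zero_le_one' ℝ)]
  have hη : LipschitzWith ⟨2 / δ, by positivity⟩ η := by
    refine LipschitzWith.const_max (LipschitzWith.const_min (LipschitzWith.of_dist_le_mul
      fun x y => ?_) _) _
    rw [Real.dist_eq, ← mul_sub, abs_mul, abs_of_pos (by positivity : 0 < 2 / δ)]
    refine mul_le_mul_of_nonneg_left ?_ (by positivity)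
    rw [sub_sub_sub_cancel_left, dist_comm x y]
    simpa [Real.dist_eq] using (lipschitz_infDist_pt K).dist_le_mul y x
  have hD := h1.sub h0
  obtain ⟨M, hM⟩ := hb.isCompact_closure.exists_bound_of_continuousOn hD.continuous.continuousOn
  obtain ⟨N, hN'⟩ := lip_cut (M := max M 0) hD hη
    (fun x => abs_le.2 ⟨by linarith [η0 x], η1 x⟩) (le_max_right _ _) fun x => by
      by_cases hx : x ∈ U
      · exact Or.inl ((hM x (subset_closure hx)).trans (le_max_left _ _))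
      · exact Or.inr (ηo x hx)
  obtain ⟨L, hL⟩ := lip_prim hγ
  let G : E d → E d := fun x => G₀ x + η x • (G₁ x - G₀ x)
  have hG : LipschitzWith (K₀ + N) G := h0.add hN'
  have e1 : dI γ G₀ U = dI γ G U := by
    rw [dI_eq hγ h0, dI_eq hγ hG]
    refine H19.null d _ _ (L * (K₀ + N)) _ (hL.comp (h0.weaken le_self_add)) (hL.comp hG)
      hU.measurableSet hb fun x hx => ?_
    simp only [Function.comp, G, ηo x hx, zero_smul, add_zero]
  rw [e1]
  refine setIntegral_congr_fun hU.measurableSet fun x hx => ?_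
  by_cases hx' : x ∈ K
  · have e : G =ᶠ[𝓝 x] G₁ := by
      have : ∀ᶠ y in 𝓝 x, infDist y K < δ / 2 :=
        (continuous_infDist_pt K).continuousAt.eventually_lt continuousAt_const
          (by rw [infDist_zero_of_mem hx']; positivity)
      filter_upwards [this] with y hy
      simp only [G, ηi y hy, one_smul, add_sub_cancel]
    simp only [e.eq_of_nhds, e.fderiv_eq]
  · have a1 : ∏ i, γ i (G x i) = 0 := hz x hx hx' (η x) ⟨η0 x, η1 x⟩
    simp only [a1, z1 x hx hx', zero_mul]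

/-- The degree integral of an affine map. -/
theorem lin {γ : Fin d → ℝ → ℝ} (hγ : Dens γ) (A : E d →L[ℝ] E d) (hA : A.det ≠ 0) (z : E d)
    {B : Set (E d)} (hB : ∀ x, x ∉ B → ∏ i, γ i (A (x - z) i) = 0) :
    dI γ (fun x => A (x - z)) B = (∫ w : E d, ∏ i, γ i (w i)) * SignType.sign A.det := by
  have hd : ∀ x, fderiv ℝ (fun x => A (x - z)) x = A := fun x => by
    have := A.hasFDerivAt.comp x ((hasFDerivAt_id x).sub_const z)
    rw [ContinuousLinearMap.comp_id] at this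
    exact this.fderiv
  have c : Continuous fun w : E d => ∏ i, γ i (w i) :=
    continuous_finsetProd _ fun i _ => (hγ i).1.comp (continuous_apply i)
  have e1 := integral_sub_right_eq_self (μ := (volume : Measure (E d)))
    (fun x => ∏ i, γ i (A x i)) z
  have e2 := integral_map (μ := (volume : Measure (E d))) (φ := (A : E d →ₗ[ℝ] E d))
    A.continuous.measurable.aemeasurable c.aestronglyMeasurable
  rw [Measure.map_linearMap_addHaar_eq_smul_addHaar _ hA, integral_smul_measure,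
    ENNReal.toReal_ofReal (abs_nonneg _), smul_eq_mul] at e2
  simp only [dI, hd]
  rw [setIntegral_eq_integral_of_forall_compl_eq_zero fun x hx => by rw [hB x hx, zero_mul],
    integral_mul_const, e1]
  have e3 : ∫ x, ∏ i, γ i (A x i) = |A.det⁻¹| * ∫ w : E d, ∏ i, γ i (w i) := e2.symm
  rw [e3, mul_comm |_|, mul_assoc]
  congr 1
  rw [abs_inv, inv_mul_eq_iff_eq_mul₀ (abs_ne_zero.2 hA), abs_mul_sign]

theorem approx {f : E d → E d} {C : Set (E d)} (hC : IsCompact C) (hf : ContinuousOn f C) {ρ : ℝ}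
    (hρ : 0 < ρ) : ∃ (h : E d → E d) (L : ℝ≥0), LipschitzWith L h ∧ ∀ x ∈ C, ‖h x - f x‖ ≤ ρ := by
  obtain ⟨F, hF⟩ := ContinuousMap.exists_restrict_eq hC.isClosed
    (⟨C.domRestrict f, hf.domRestrict⟩ : C(C, E d))
  obtain ⟨g, g1, g2, -⟩ := F.continuous.exists_contDiff_approx 1 (ε := fun _ => ρ)
    continuous_const fun _ => hρ
  obtain ⟨L, hL⟩ := (ContDiff.locallyLipschitz g1).locallyLipschitzOn
    |>.exists_lipschitzOnWith_of_compact hC
  obtain ⟨h, h1, h2⟩ := hL.extend_pi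
  refine ⟨h, L, h1, fun x hx => ?_⟩
  have : F x = f x := congrArg (fun q : C(C, E d) => q ⟨x, hx⟩) hF
  rw [← h2 hx, ← this, ← dist_eq_norm]
  exact (g2 x).le

theorem loc {f : E d → E d} {z : E d} (h0 : f z = 0) (hd : DifferentiableAt ℝ f z)
    (hA : (fderiv ℝ f z).det ≠ 0) : ∃ c : ℝ, 0 < c ∧ (∀ v, c * ‖v‖ ≤ ‖fderiv ℝ f z v‖) ∧
      ∀ᶠ x in 𝓝 z, ‖f x - fderiv ℝ f z (x - z)‖ ≤ c / 2 * ‖x - z‖ := by
  obtain ⟨K, K0, hK⟩ := (fderiv ℝ f z : E d →ₗ[ℝ] E d).exists_antilipschitzWith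
    (not_not.1 (mt LinearMap.det_eq_zero_iff_ker_ne_bot.2 hA))
  have K1 : (0 : ℝ) < K := K0
  refine ⟨(K : ℝ)⁻¹, by positivity, fun v => ?_, ?_⟩
  · rw [inv_mul_le_iff₀ K1]
    exact hK.le_mul_norm (map_zero _) v
  · have := hd.hasFDerivAt.isLittleO.def (c := (K : ℝ)⁻¹ / 2) (by positivity)
    simpa only [h0, sub_zero] using this

/-- The degree integral of a good approximation is the sum of the signs. -/
theorem key {f : E d → E d} {C U : Set (E d)} (S : Finset (E d)) (hC : IsCompact C)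
    (hU : IsOpen U) (hUC : U ⊆ C) (hf : ContinuousOn f C)
    (hS : ∀ z ∈ S, z ∈ U ∧ f z = 0 ∧ DifferentiableAt ℝ f z ∧ (fderiv ℝ f z).det ≠ 0)
    (hz : ∀ x ∈ C, f x = 0 → x ∈ S) :
    ∀ᶠ ρ in 𝓝[>] (0 : ℝ), ∀ γ : Fin d → ℝ → ℝ, Dens γ →
      (∀ w : E d, ρ ≤ ‖w‖ → ∏ i, γ i (w i) = 0) → ∀ (h : E d → E d) (L : ℝ≥0),
      LipschitzWith L h → (∀ x ∈ C, ‖h x - f x‖ ≤ ρ) →
      dI γ h U = (∫ w : E d, ∏ i, γ i (w i)) *
        ∑ z ∈ S, (SignType.sign (fderiv ℝ f z).det : ℝ) := by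
  choose! c c0 c1 c2 using fun z (hz : z ∈ S) => loc (hS z hz).2.1 (hS z hz).2.2.1 (hS z hz).2.2.2
  have ev : ∀ᶠ r in 𝓝 (0 : ℝ), ∀ z ∈ S, (ball z r ⊆ U ∧
      ball z r ⊆ {x | ‖f x - fderiv ℝ f z (x - z)‖ ≤ c z / 2 * ‖x - z‖}) ∧
      ∀ z' ∈ S, z ≠ z' → r < dist z z' / 2 := by
    refine (eventually_all_finset S).2 fun z hz => ((eventually_ball_subset
      (hU.mem_nhds (hS z hz).1)).and (eventually_ball_subset (c2 z hz))).and
      ((eventually_all_finset S).2 fun z' _ => ?_)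
    by_cases e : z = z'
    · exact Eventually.of_forall fun _ h => absurd e h
    · filter_upwards [gt_mem_nhds (half_pos (dist_pos.2 e))] with r hr _ using hr
  obtain ⟨r, hr, r0⟩ := ((ev.filter_mono nhdsWithin_le_nhds).and
    (self_mem_nhdsWithin (s := Ioi (0 : ℝ)))).exists
  have r0 : 0 < r := r0
  have hO : IsOpen (⋃ z ∈ S, ball z r) := isOpen_biUnion fun _ _ => isOpen_ball
  obtain ⟨ρ₀, ρ0, hρ⟩ := (hC.diff hO).exists_forall_le' (f := fun x => ‖f x‖) (a := 0)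
    (hf.mono sdiff_subset).norm fun x hx => norm_pos_iff.2 fun h =>
      hx.2 (mem_biUnion (hz x hx.1 h) (mem_ball_self r0))
  have ev2 : ∀ᶠ ρ in 𝓝 (0 : ℝ), ρ < ρ₀ / 2 ∧ ∀ z ∈ S, ρ < c z * r / 8 :=
    (gt_mem_nhds (half_pos ρ0) : ∀ᶠ ρ in 𝓝 (0 : ℝ), ρ < ρ₀ / 2).and
      ((eventually_all_finset S).2 fun z hz => gt_mem_nhds (by have := c0 z hz; positivity))
  filter_upwards [ev2.filter_mono nhdsWithin_le_nhds] with ρ ⟨a1, a2⟩ γ hγ hγ0 h L hL hh
  have split : dI γ h U = ∑ z ∈ S, dI γ h (ball z r) := by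
    rw [dI_congr hU.measurableSet hO.measurableSet fun x hx => ⟨fun a => ?_, fun a => ?_⟩]
    · exact integral_biUnion_finset S (fun _ _ => measurableSet_ball)
        (fun z hz z' hz' n => ball_disjoint_ball (by linarith [(hr z hz).2 z' hz' n]))
        fun z _ => integrableOn_dI hγ hL z r
    · by_contra b
      refine hx (hγ0 _ ?_)
      linarith [hρ x ⟨hUC a, b⟩, hh x (hUC a), norm_le_insert (h x) (f x)]
    · obtain ⟨z, z1, z2⟩ := mem_iUnion₂.1 a
      exact (hr z z1).1.1 z2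
  rw [split, Finset.mul_sum]
  refine Finset.sum_congr rfl fun z hz => ?_
  have cz := c0 z hz
  rw [← lin hγ (fderiv ℝ f z) (hS z hz).2.2.2 z (B := ball z r) fun x hx => hγ0 _ ?_]
  · refine cut (K := closedBall z (r / 2)) hγ hL ((fderiv ℝ f z).lipschitz.comp
      (LipschitzWith.id.sub (LipschitzWith.const z))) (isCompact_closedBall _ _) isOpen_ball
      isBounded_ball (closedBall_subset_ball (half_lt_self r0)) fun x hx hx' t ht => hγ0 _ ?_
    have b1 : ‖f x - fderiv ℝ f z (x - z)‖ ≤ c z / 2 * ‖x - z‖ := (hr z hz).1.2 hx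
    have b2 := hh x (hUC ((hr z hz).1.1 hx))
    have b3 := c1 z hz (x - z)
    have b4 : r / 2 < ‖x - z‖ := by
      rw [← dist_eq_norm]
      exact not_le.1 hx'
    set A := fderiv ℝ f z (x - z)
    have b5 : ‖h x - A‖ ≤ ρ + c z / 2 * ‖x - z‖ := by
      linarith [norm_sub_le_norm_sub_add_norm_sub (h x) (f x) A]
    have b6 : ‖(1 - t) • (h x - A)‖ ≤ ‖h x - A‖ := by
      rw [norm_smul, Real.norm_of_nonneg (sub_nonneg.2 ht.2)]
      nlinarith [ht.1, norm_nonneg (h x - A)]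
    have b7 : A = h x + t • (A - h x) - (1 - t) • (h x - A) := by module
    have b8 := norm_sub_le (h x + t • (A - h x)) ((1 - t) • (h x - A))
    rw [← b7] at b8
    nlinarith [a2 z hz]
  · have b4 : r ≤ ‖x - z‖ := by
      rw [← dist_eq_norm]
      exact not_lt.1 hx
    nlinarith [a2 z hz, c1 z hz (x - z)]

theorem main (f g : E d → E d) (Ω : Set (E d)) (hΩ : IsOpen Ω) (hf : ContinuousOn f Ω)
    (hg : ContinuousOn g Ω) (ho : Off Ω Ω f g) (ff : {x | x ∈ Ω ∧ f x = 0}.Finite)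
    (fg : {x | x ∈ Ω ∧ g x = 0}.Finite)
    (df : ∀ z ∈ Ω, f z = 0 → DifferentiableAt ℝ f z ∧ (fderiv ℝ f z).det ≠ 0)
    (dg : ∀ z ∈ Ω, g z = 0 → DifferentiableAt ℝ g z ∧ (fderiv ℝ g z).det ≠ 0) :
    ∑ᶠ z ∈ {x | x ∈ Ω ∧ f x = 0}, (SignType.sign (fderiv ℝ f z).det : ℤ) =
      ∑ᶠ z ∈ {x | x ∈ Ω ∧ g x = 0}, (SignType.sign (fderiv ℝ g z).det : ℤ) := by
  obtain ⟨K, hK, KΩ, e⟩ := ho
  obtain ⟨K₁, k1, k2, k3⟩ := exists_compact_between (hK.union (ff.isCompact.union fg.isCompact)) hΩ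
    (union_subset KΩ (union_subset (fun _ h => h.1) fun _ h => h.1))
  obtain ⟨C, c1, c2, c3⟩ := exists_compact_between k1 hΩ k3
  have sub := (k2.trans interior_subset).trans c2
  have a := key ff.toFinset c1 isOpen_interior interior_subset (hf.mono c3)
    (fun z hz => have h := ff.mem_toFinset.1 hz
      ⟨sub (Or.inr (Or.inl h)), h.2, df z h.1 h.2⟩) fun x hx h => ff.mem_toFinset.2 ⟨c3 hx, h⟩
  have b := key fg.toFinset c1 isOpen_interior interior_subset (hg.mono c3)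
    (fun z hz => have h := fg.mem_toFinset.1 hz
      ⟨sub (Or.inr (Or.inr h)), h.2, dg z h.1 h.2⟩) fun x hx h => fg.mem_toFinset.2 ⟨c3 hx, h⟩
  obtain ⟨ρ₀, ρ0, hρ⟩ := (c1.diff (isOpen_interior (s := K₁))).exists_forall_le'
    (f := fun x => ‖f x‖) (a := 0) (hf.mono (sdiff_subset.trans c3)).norm fun x hx =>
      norm_pos_iff.2 fun h => hx.2 (k2 (Or.inr (Or.inl ⟨c3 hx.1, h⟩)))
  have ev : ∀ᶠ ρ in 𝓝[>] (0 : ℝ), ρ < ρ₀ / 2 := nhdsWithin_le_nhds (gt_mem_nhds (half_pos ρ0))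
  obtain ⟨ρ, ⟨⟨a, b⟩, r1⟩, r0⟩ := (((a.and b).and ev).and self_mem_nhdsWithin).exists
  obtain ⟨γ, hγ, γ0, γ1⟩ := exists_bump (0 : E d) (τ := ρ) r0
  simp only [dist_zero_right] at γ0
  obtain ⟨h₀, L₀, l0, m0⟩ := approx c1 (hf.mono c3) (ρ := ρ) r0
  obtain ⟨h₁, L₁, l1, m1⟩ := approx c1 (hg.mono c3) (ρ := ρ) r0
  have q := cut hγ l0 l1 k1 isOpen_interior (c1.isBounded.subset interior_subset) c2
    fun x hx hx' t ht => γ0 _ (by
      have xc := interior_subset hx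
      have n0 := m0 x xc
      have n1 := m1 x xc
      rw [← e x (c3 xc) fun h => hx' (interior_subset (k2 (Or.inl h)))] at n1
      have n2 := hρ x ⟨xc, fun h => hx' (interior_subset h)⟩
      have n3 : f x = h₀ x + t • (h₁ x - h₀ x) - ((1 - t) • (h₀ x - f x) + t • (h₁ x - f x)) := by
        module
      have n4 := norm_sub_le (h₀ x + t • (h₁ x - h₀ x))
        ((1 - t) • (h₀ x - f x) + t • (h₁ x - f x))
      have n5 := norm_add_le ((1 - t) • (h₀ x - f x)) (t • (h₁ x - f x))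
      rw [← n3] at n4
      rw [norm_smul, norm_smul, Real.norm_of_nonneg (sub_nonneg.2 ht.2),
        Real.norm_of_nonneg ht.1] at n5
      nlinarith [ht.1, ht.2])
  rw [a γ hγ γ0 h₀ L₀ l0 m0, b γ hγ γ0 h₁ L₁ l1 m1, mul_right_inj' γ1.ne'] at q
  rw [finsum_mem_eq_finite_toFinset_sum _ ff, finsum_mem_eq_finite_toFinset_sum _ fg]
  have cast : ∀ s : SignType, (s : ℝ) = ((s : ℤ) : ℝ) := fun s => by cases s <;> simp
  simp only [cast] at q
  exact_mod_cast q

end B0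

theorem sB0 : S_B0 := by
  intro V _ _ _ f g Ω hΩ hf hg ho ff fg df dg
  let e : V ≃L[ℝ] E (Module.finrank ℝ V) := (Module.finBasis ℝ V).equivFunL
  have zs : ∀ f : V → V, {x | x ∈ e.symm ⁻¹' Ω ∧ (e ∘ f ∘ e.symm) x = 0} =
      e '' {x | x ∈ Ω ∧ f x = 0} := fun f => by
    rw [e.image_eq_preimage_symm]
    ext x
    simp
  have dd : ∀ (f : V → V) (z : V), DifferentiableAt ℝ f z →
      DifferentiableAt ℝ (e ∘ f ∘ e.symm) (e z) ∧
        (fderiv ℝ (e ∘ f ∘ e.symm) (e z)).det = (fderiv ℝ f z).det := fun f z h => by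
    have h1 : HasFDerivAt f (fderiv ℝ f z) (e.symm (e z)) := by
      rw [e.symm_apply_apply]
      exact h.hasFDerivAt
    have h2 := e.hasFDerivAt.comp (e z) (h1.comp (e z) e.symm.hasFDerivAt)
    refine ⟨h2.differentiableAt, ?_⟩
    rw [h2.fderiv]
    exact LinearMap.det_conj (fderiv ℝ f z : V →ₗ[ℝ] V) e.toLinearEquiv
  have cc : ∀ f : V → V, ContinuousOn f Ω → ContinuousOn (e ∘ f ∘ e.symm) (e.symm ⁻¹' Ω) :=
    fun f h => e.continuous.comp_continuousOn
      (h.comp e.symm.continuous.continuousOn (mapsTo_preimage _ _))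
  have nd : ∀ f : V → V, (∀ z ∈ Ω, f z = 0 → DifferentiableAt ℝ f z ∧ (fderiv ℝ f z).det ≠ 0) →
      ∀ z ∈ e.symm ⁻¹' Ω, (e ∘ f ∘ e.symm) z = 0 → DifferentiableAt ℝ (e ∘ f ∘ e.symm) z ∧
        (fderiv ℝ (e ∘ f ∘ e.symm) z).det ≠ 0 := fun f h z hz h0 => by
    obtain ⟨y, rfl⟩ := e.surjective z
    have h1 := h y (by simpa using hz) (by simpa using h0)
    exact ⟨(dd f y h1.1).1, (dd f y h1.1).2 ▸ h1.2⟩
  have m := B0.main (e ∘ f ∘ e.symm) (e ∘ g ∘ e.symm) (e.symm ⁻¹' Ω)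
    (hΩ.preimage e.symm.continuous) (cc f hf) (cc g hg) (by
      obtain ⟨K, k1, k2, k3⟩ := ho
      refine ⟨e '' K, k1.image e.continuous, ?_, fun x hx hx' => ?_⟩
      · rintro _ ⟨y, hy, rfl⟩
        simpa using k2 hy
      · exact congrArg e (k3 _ hx fun h => hx' ⟨_, h, e.apply_symm_apply x⟩))
    (zs f ▸ ff.image e) (zs g ▸ fg.image e) (nd f df) (nd g dg)
  rw [zs, zs, finsum_mem_image e.injective.injOn, finsum_mem_image e.injective.injOn] at m
  refine (finsum_mem_congr rfl fun z hz => ?_).trans (m.trans (finsum_mem_congr rfl fun z hz => ?_))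
  · rw [(dd f z (df z hz.1 hz.2).1).2]
  · rw [(dd g z (dg z hz.1 hz.2).1).2]

end Pool.Agent.MP_826def_gt.BE
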