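import Pool.Agent.MP_826def_gt.BE.Basic

/-! The degree under a change of the space: isomorphisms and stabilisation. -/

namespace Pool.Agent.MP_826def_gt.BE

open Set Module Filter Topology

noncomputable section

variable {V W E : Type} [NormedAddCommGroup V] [NormedSpace ℂ V] [FiniteDimensional ℂ V]
  [NormedSpace ℝ V] [IsScalarTower ℝ ℂ V]
  [NormedAddCommGroup W] [NormedSpace ℂ W] [FiniteDimensional ℂ W] [NormedSpace ℝ W]
  [IsScalarTower ℝ ℂ W] [NormedAddCommGroup E] [NormedSpace ℂ E] [FiniteDimensional ℂ E]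
  [NormedSpace ℝ E] [IsScalarTower ℝ ℂ E]

omit [FiniteDimensional ℂ V] [NormedSpace ℝ V] [IsScalarTower ℝ ℂ V] [FiniteDimensional ℂ W]
  [NormedSpace ℝ W] [IsScalarTower ℝ ℂ W] [FiniteDimensional ℂ E] [NormedSpace ℝ E]
  [IsScalarTower ℝ ℂ E] in
theorem d2_sect_iso {O : Set V} {p : V → W →L[ℂ] W} {s : V → W} (h : Sect O p s)
    (L : E ≃L[ℂ] V) : Sect (L ⁻¹' O) (fun x => p (L x)) (fun x => s (L x)) where
  op := h.op.preimage L.continuous
  pc := h.pc.comp L.continuous.continuousOn fun _ hx => hx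
  idem := fun x hx w => h.idem (L x) hx w
  sc := h.sc.comp L.continuous.continuousOn fun _ hx => hx
  mem := fun x hx => h.mem (L x) hx
  cpt := L.toHomeomorph.isCompact_preimage.2 h.cpt

theorem d2_ld_iso (hL : S_Ld) (L : E ≃L[ℂ] V) {B : V →L[ℝ] W} {q : W →L[ℂ] W}
    (hB : Function.Injective B) (hr : range B = range q) :
    ld (B.comp ((L : E →L[ℂ] V).restrictScalars ℝ)) = ld B := by
  obtain ⟨⟨j, hj⟩, h1⟩ := hL V W B q hB hr
  have hB' : Function.Injective (B.comp ((L : E →L[ℂ] V).restrictScalars ℝ)) :=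
    hB.comp L.injective
  have hr' : range (B.comp ((L : E →L[ℂ] V).restrictScalars ℝ)) = range q := by
    rw [← hr]
    exact L.surjective.range_comp B
  have e : ((((L.symm : V →L[ℂ] E).comp j).restrictScalars ℝ).comp
      (B.comp ((L : E →L[ℂ] V).restrictScalars ℝ))).det = ((j.restrictScalars ℝ).comp B).det := by
    refine Eq.trans ?_ (LinearMap.det_conj
      (((j.restrictScalars ℝ).comp B : V →L[ℝ] V) : V →ₗ[ℝ] V)
      (L.symm.toLinearEquiv.restrictScalars ℝ))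
    rfl
  rw [(hL E W _ q hB' hr').2 ((L.symm : V →L[ℂ] E).comp j) (by rw [e]; exact hj), e, h1 j hj]

theorem d2_iso (hL : S_Ld) (h1 : S_D1) {O : Set V} {p : V → W →L[ℂ] W} {s t : V → W}
    (h : Sect O p s) (hk : Rk O p (finrank ℂ V)) (ht : Rep O p s t) (L : E ≃L[ℂ] V) :
    deg (L ⁻¹' O) (fun x => p (L x)) (fun x => s (L x)) = dsum O t := by
  have hd : ∀ x, ∀ B : V →L[ℝ] W, HasFDerivAt t B (L x) →
      HasFDerivAt (fun x => t (L x)) (B.comp ((L : E →L[ℂ] V).restrictScalars ℝ)) x :=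
    fun x B hB => hB.comp x ((L : E →L[ℂ] V).restrictScalars ℝ).hasFDerivAt
  have hk' : Rk (L ⁻¹' O) (fun x => p (L x)) (finrank ℂ E) := fun x hx =>
    (hk (L x) hx).trans L.toLinearEquiv.finrank_eq.symm
  have hrep : Rep (L ⁻¹' O) (fun x => p (L x)) (fun x => s (L x)) (fun x => t (L x)) := by
    refine ⟨d2_sect_iso ht.1 L, ?_, fun z hz h0 => ?_⟩
    · obtain ⟨K, a, b, c⟩ := ht.2.1
      exact ⟨L ⁻¹' K, L.toHomeomorph.isCompact_preimage.2 a, preimage_mono b,
        fun x hx hx' => c (L x) hx hx'⟩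
    · obtain ⟨B, a, b, c⟩ := ht.2.2 (L z) hz h0
      refine ⟨_, hd z B a, b.comp L.injective, ?_⟩
      rw [← c]
      exact L.surjective.range_comp B
  rw [(h1 E W _ _ _ (d2_sect_iso h L) hk').1 _ hrep]
  refine finsum_mem_eq_of_bijOn L ⟨fun x hx => hx, L.injective.injOn, fun y hy => ?_⟩
    fun x hx => ?_
  · refine ⟨L.symm y, ?_, L.apply_symm_apply y⟩
    simpa using hy
  · obtain ⟨B, a, b, c⟩ := ht.2.2 (L x) hx.1 hx.2
    rw [(hd x B a).fderiv, a.fderiv, d2_ld_iso hL L b c]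

theorem d2_ld_stab (hL : S_Ld) {B : V →L[ℝ] W} {q : W →L[ℂ] W}
    (hB : Function.Injective B) (hr : range B = range q) :
    Function.Injective (B.prodMap (ContinuousLinearMap.id ℝ E)) ∧
    range (B.prodMap (ContinuousLinearMap.id ℝ E)) =
      range (q.prodMap (ContinuousLinearMap.id ℂ E)) ∧
    ld (B.prodMap (ContinuousLinearMap.id ℝ E)) = ld B := by
  obtain ⟨⟨j, hj⟩, h1⟩ := hL V W B q hB hr
  have hB' : Function.Injective (B.prodMap (ContinuousLinearMap.id ℝ E)) :=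
    hB.prodMap Function.injective_id
  have hr' : range (B.prodMap (ContinuousLinearMap.id ℝ E)) =
      range (q.prodMap (ContinuousLinearMap.id ℂ E)) := by
    change range (Prod.map B id) = range (Prod.map q id)
    rw [range_prodMap, range_prodMap, hr]
  refine ⟨hB', hr', ?_⟩
  have e : (((j.prodMap (ContinuousLinearMap.id ℂ E)).restrictScalars ℝ).comp
      (B.prodMap (ContinuousLinearMap.id ℝ E))).det = ((j.restrictScalars ℝ).comp B).det := by
    have : FiniteDimensional ℝ V := FiniteDimensional.trans ℝ ℂ V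
    have : FiniteDimensional ℝ E := FiniteDimensional.trans ℝ ℂ E
    have := LinearMap.det_prodMap (((j.restrictScalars ℝ).comp B : V →L[ℝ] V) : V →ₗ[ℝ] V)
      (LinearMap.id : E →ₗ[ℝ] E)
    rw [LinearMap.det_id, mul_one] at this
    exact this
  rw [(hL (V × E) (W × E) _ _ hB' hr').2 (j.prodMap (ContinuousLinearMap.id ℂ E))
    (by rw [e]; exact hj), e, h1 j hj]

/-- A cut off function. -/
def d2lam (e : E) : ℂ := ((max 0 (min 1 (2 - ‖e‖)) : ℝ) : ℂ)

omit [NormedSpace ℂ E] [FiniteDimensional ℂ E] [NormedSpace ℝ E] [IsScalarTower ℝ ℂ E] in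
theorem d2lam_spec : Continuous (d2lam : E → ℂ) ∧ (∀ e : E, ‖e‖ < 1 → d2lam e = 1) ∧
    ∀ e : E, 2 < ‖e‖ → d2lam e = 0 := by
  refine ⟨by unfold d2lam; fun_prop, fun e he => ?_, fun e he => ?_⟩
  · rw [d2lam, min_eq_left (by linarith), max_eq_right zero_le_one, Complex.ofReal_one]
  · rw [d2lam, max_eq_left ((min_le_right _ _).trans (by linarith)), Complex.ofReal_zero]

omit [FiniteDimensional ℂ V] [NormedSpace ℝ V] [IsScalarTower ℝ ℂ V] [FiniteDimensional ℂ W]
  [NormedSpace ℝ W] [IsScalarTower ℝ ℂ W] [FiniteDimensional ℂ E] [NormedSpace ℝ E]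
  [IsScalarTower ℝ ℂ E] [NormedSpace ℂ V] in
theorem d2_sect_stab {O : Set V} {p : V → W →L[ℂ] W} {t : V → W} (h : Sect O p t)
    {u : V × E → W} (hc : ContinuousOn u {z : V × E | z.1 ∈ O})
    (hm : ∀ z : V × E, z.1 ∈ O → p z.1 (u z) = u z) (h0 : ∀ x, u (x, 0) = t x) :
    Sect {z : V × E | z.1 ∈ O} (fun z => (p z.1).prodMap (ContinuousLinearMap.id ℂ E))
      (fun z => (u z, z.2)) where
  op := h.op.preimage continuous_fst
  pc := ContinuousOn.prod_mapL ℂ (h.pc.comp continuousOn_fst fun _ hx => hx) continuousOn_const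
  idem := fun z hz w => Prod.ext (h.idem z.1 hz w.1) rfl
  sc := hc.prodMk continuousOn_snd
  mem := fun z hz => Prod.ext (hm z hz) rfl
  cpt := by
    have e : {z : V × E | z ∈ {z : V × E | z.1 ∈ O} ∧ (u z, z.2) = 0} =
        {x | x ∈ O ∧ t x = 0} ×ˢ {0} := by
      ext ⟨x, y⟩
      simp only [mem_ofPred_eq, Prod.mk_eq_zero, mem_prod, mem_singleton_iff]
      constructor
      · rintro ⟨a, b, rfl⟩
        exact ⟨⟨a, (h0 x).symm.trans b⟩, rfl⟩
      · rintro ⟨⟨a, b⟩, rfl⟩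
        exact ⟨a, (h0 x).trans b, rfl⟩
    rw [e]
    exact h.cpt.prod isCompact_singleton

theorem d2_stab (hL : S_Ld) (h1 : S_D1) {O : Set V} {p : V → W →L[ℂ] W} {s t : V → W}
    (h : Sect O p s) (hk : Rk O p (finrank ℂ V)) (ht : Rep O p s t) :
    deg {z : V × E | z.1 ∈ O} (fun z => (p z.1).prodMap (ContinuousLinearMap.id ℂ E))
      (fun z => (s z.1, z.2)) = dsum O t := by
  obtain ⟨lc, l1, l0⟩ := d2lam_spec (E := E)
  have : ProperSpace E := FiniteDimensional.proper ℂ E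
  have hs1 : ContinuousOn (fun z : V × E => s z.1) {z : V × E | z.1 ∈ O} :=
    h.sc.comp continuousOn_fst fun _ hx => hx
  have ht1 : ContinuousOn (fun z : V × E => t z.1) {z : V × E | z.1 ∈ O} :=
    ht.1.sc.comp continuousOn_fst fun _ hx => hx
  set u : V × E → W := fun z => s z.1 + d2lam z.2 • (t z.1 - s z.1) with hu
  have u1 : ∀ z : V × E, ‖z.2‖ < 1 → u z = t z.1 := fun z hz => by
    simp only [hu, l1 z.2 hz, one_smul, add_sub_cancel]
  have u0 : ∀ x, u (x, 0) = t x := fun x => u1 (x, 0) (by simp)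
  have hd : ∀ x, ∀ B : V →L[ℝ] W, HasFDerivAt t B x →
      HasFDerivAt (fun z : V × E => (u z, z.2)) (B.prodMap (ContinuousLinearMap.id ℝ E))
        (x, 0) := fun x B hB => by
    refine (HasFDerivAt.prodMap (x, (0 : E)) hB (hasFDerivAt_id (0 : E))).congr_of_eventuallyEq ?_
    have : {z : V × E | ‖z.2‖ < 1} ∈ 𝓝 (x, (0 : E)) :=
      (isOpen_lt (by fun_prop) continuous_const).mem_nhds (by simp)
    filter_upwards [this] with z hz
    exact Prod.ext (u1 z hz) rfl
  have hk' : Rk {z : V × E | z.1 ∈ O}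
      (fun z => (p z.1).prodMap (ContinuousLinearMap.id ℂ E)) (finrank ℂ (V × E)) := by
    intro z hz
    have e : LinearMap.range (((p z.1).prodMap (ContinuousLinearMap.id ℂ E) :
        W × E →L[ℂ] W × E) : W × E →ₗ[ℂ] W × E) =
        (LinearMap.range (p z.1 : W →ₗ[ℂ] W)).prod (LinearMap.range (LinearMap.id : E →ₗ[ℂ] E)) :=
      LinearMap.range_prodMap _ _
    have e2 := LinearMap.finrank_range_of_inj
      (f := (LinearMap.range (p z.1 : W →ₗ[ℂ] W)).subtype.prodMap (LinearMap.id : E →ₗ[ℂ] E))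
      (Function.Injective.prodMap Subtype.val_injective Function.injective_id)
    rw [LinearMap.range_prodMap, Submodule.range_subtype, Module.finrank_prod] at e2
    rw [e, e2, Module.finrank_prod, ← hk z.1 hz]
  have hz2 : ∀ z : V × E, (u z, z.2) = 0 → z = (z.1, 0) ∧ t z.1 = 0 := by
    rintro ⟨x, y⟩ h0
    obtain ⟨a, rfl⟩ := Prod.mk_eq_zero.1 h0
    exact ⟨rfl, (u0 x).symm.trans a⟩
  have hrep : Rep {z : V × E | z.1 ∈ O} (fun z => (p z.1).prodMap (ContinuousLinearMap.id ℂ E))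
      (fun z => (s z.1, z.2)) (fun z => (u z, z.2)) := by
    refine ⟨d2_sect_stab ht.1 (hs1.add ((lc.comp continuous_snd).continuousOn.smul (ht1.sub hs1)))
      (fun z hz => ?_) u0, ?_, fun z hz h0 => ?_⟩
    · simp only [hu, map_add, map_smul, map_sub, h.mem z.1 hz, ht.1.mem z.1 hz]
    · obtain ⟨K, a, b, c⟩ := ht.2.1
      refine ⟨K ×ˢ Metric.closedBall 0 2, a.prod (isCompact_closedBall _ _),
        fun z hz => b hz.1, fun z hz hz' => Prod.ext ?_ rfl⟩
      by_cases hK : z.1 ∈ K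
      · have : 2 < ‖z.2‖ := by
          by_contra hn
          exact hz' ⟨hK, mem_closedBall_zero_iff.2 (not_lt.1 hn)⟩
        simp only [hu, l0 z.2 this, zero_smul, add_zero]
      · simp only [hu, c z.1 hz hK, sub_self, smul_zero, add_zero]
    · obtain ⟨e, t0⟩ := hz2 z h0
      obtain ⟨B, a, b, c⟩ := ht.2.2 z.1 hz t0
      obtain ⟨a', b', -⟩ := d2_ld_stab (E := E) hL b c
      exact ⟨_, e ▸ hd z.1 B a, a', b'⟩
  rw [(h1 (V × E) (W × E) _ _ _ (d2_sect_stab h hs1 (fun z hz => h.mem z.1 hz) fun _ => rfl)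
    hk').1 _ hrep]
  refine finsum_mem_eq_of_bijOn Prod.fst ⟨fun z hz => ⟨hz.1, (hz2 z hz.2).2⟩,
    fun z hz w hw e => ?_, fun x hx => ⟨(x, 0), ⟨hx.1, ?_⟩, rfl⟩⟩ fun z hz => ?_
  · rw [(hz2 z hz.2).1, (hz2 w hw.2).1, e]
  · exact Prod.ext ((u0 x).trans hx.2) rfl
  · obtain ⟨e, t0⟩ := hz2 z hz.2
    obtain ⟨B, a, b, c⟩ := ht.2.2 z.1 hz.1 t0
    have h2 := (hd z.1 B a).fderiv
    rw [← e] at h2
    rw [h2, a.fderiv, (d2_ld_stab (E := E) hL b c).2.2]

theorem sD2Of : S_D2Of := by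
  intro hN hL h1 V W _ _ _ _ _ _ _ _ _ _ O p s h hk E _ _ _ _ _
  have : FiniteDimensional ℝ V := FiniteDimensional.trans ℝ ℂ V
  have hr : finrank ℝ V ≤ 2 * finrank ℂ V := by
    rw [← Module.finrank_mul_finrank ℝ ℂ V, Complex.finrank_real_complex]
  obtain ⟨t, ht⟩ := hN V W O p s _ h hk hr
  rw [(h1 V W O p s h hk).1 t ht]
  exact ⟨fun L => d2_iso hL h1 h hk ht L, d2_stab hL h1 h hk ht⟩

end

end Pool.Agent.MP_826def_gt.BE
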