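import Pool.Agent.MP_826def_gt.BE.Basic

/-! Homotopy invariance of the degree. -/

namespace Pool.Agent.MP_826def_gt.BE

open Set Module Filter Topology

namespace D3

variable {V W T : Type} [NormedAddCommGroup W] [NormedSpace ℂ W] [TopologicalSpace T]

/-- Restriction to an open set that contains the zeros. -/
theorem res {O O' : Set T} {p : T → W →L[ℂ] W} {s : T → W} (h : Sect O p s) (ho : IsOpen O')
    (hs : O' ⊆ O) (hz : ∀ x ∈ O, s x = 0 → x ∈ O') : Sect O' p s := by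
  refine ⟨ho, h.pc.mono hs, fun x hx => h.idem x (hs hx), h.sc.mono hs,
    fun x hx => h.mem x (hs hx), ?_⟩
  have e : {x | x ∈ O' ∧ s x = 0} = {x | x ∈ O ∧ s x = 0} :=
    Set.ext fun x => ⟨fun hx => ⟨hs hx.1, hx.2⟩, fun hx => ⟨hz x hx.1 hx.2, hx.2⟩⟩
  rw [e]
  exact h.cpt

/-- The slices of a section are sections. -/
theorem slice [T2Space T] [TopologicalSpace V] [T2Space V] {O : Set (T × V)}
    {p : T × V → W →L[ℂ] W} {s : T × V → W} (h : Sect O p s) (a : T) :
    Sect {x | (a, x) ∈ O} (fun x => p (a, x)) (fun x => s (a, x)) := by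
  have hc : Continuous fun x : V => (a, x) := by fun_prop
  refine ⟨h.op.preimage hc, h.pc.comp hc.continuousOn fun _ hx => hx, fun x hx => h.idem _ hx,
    h.sc.comp hc.continuousOn fun _ hx => hx, fun x hx => h.mem _ hx, ?_⟩
  have e : {x | x ∈ {x | (a, x) ∈ O} ∧ s (a, x) = 0} =
      Prod.snd '' ({z | z ∈ O ∧ s z = 0} ∩ Prod.fst ⁻¹' {a}) := by
    ext x
    constructor
    · exact fun hx => ⟨(a, x), ⟨hx, rfl⟩, rfl⟩
    · rintro ⟨⟨b, y⟩, ⟨h1, h2⟩, rfl⟩
      obtain rfl : b = a := h2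
      exact h1
  rw [e]
  exact (h.cpt.inter_right (isClosed_singleton.preimage continuous_fst)).image continuous_snd

theorem alg {R : Type} [Ring R] {P Q : R} (hP : P * P = P) (hQ : Q * Q = Q)
    (hw : IsUnit (P * Q + (1 - P) * (1 - Q))) :
    Q * Ring.inverse (P * Q + (1 - P) * (1 - Q)) * (P * Q) = Q ∧
      P * Q * (Q * Ring.inverse (P * Q + (1 - P) * (1 - Q))) = P ∧ P * Q * Q = P * Q := by
  set w := P * Q + (1 - P) * (1 - Q) with hwd
  have h3 : P * Q * Q = P * Q := by rw [mul_assoc, hQ]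
  have h1 : w * Q = P * Q := by
    rw [hwd, add_mul, h3, mul_assoc, sub_mul 1 Q Q, one_mul, hQ, sub_self, mul_zero, add_zero]
  have h2 : P * w = P * Q := by
    rw [hwd, mul_add, ← mul_assoc, hP, ← mul_assoc, mul_sub P 1 P, mul_one, hP, sub_self,
      zero_mul, add_zero]
  refine ⟨?_, ?_, h3⟩
  · rw [← h1, mul_assoc, ← mul_assoc _ w, Ring.inverse_mul_cancel _ hw, one_mul, hQ]
  · rw [← mul_assoc, h3, ← h2, mul_assoc, Ring.mul_inverse_cancel _ hw, mul_one]

end D3

theorem sD3Of : S_D3Of := by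
  intro h1 V W T _ _ _ _ _ _ _ _ _ _ _ _ _ O p s hS hR
  have : CompleteSpace W := FiniteDimensional.complete ℂ W
  have : ProperSpace V := FiniteDimensional.proper ℂ V
  refine fun a b => IsLocallyConstant.apply_eq_of_preconnectedSpace
    (f := fun a => deg {x | (a, x) ∈ O} (fun x => p (a, x)) (fun x => s (a, x))) ?_ a b
  rw [IsLocallyConstant.iff_eventually_eq]
  clear a b
  intro a
  have hid : ∀ z ∈ O, p z * p z = p z := fun z hz =>
    ContinuousLinearMap.ext fun w => hS.idem z hz w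
  have Sa := D3.slice hS a
  obtain ⟨K₁, hK₁, hZ₁, h₁O⟩ := exists_compact_between Sa.cpt Sa.op fun _ hx => hx.1
  obtain ⟨K₂, hK₂, h₁₂, h₂O⟩ := exists_compact_between hK₁ Sa.op h₁O
  obtain ⟨l, l1, lc, ls, l01⟩ :=
    exists_continuousMap_one_of_isCompact_subset_isOpen hK₁ isOpen_interior h₁₂
  have hpa : ∀ y ∈ K₂, ContinuousAt (fun z : T × V => p (a, z.2)) (a, y) := fun y hy =>
    ContinuousAt.comp (g := fun x => p (a, x)) (f := Prod.snd) (x := (a, y))
      (Sa.pc.continuousAt (Sa.op.mem_nhds (h₂O hy))) continuousAt_snd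
  have hsa : ∀ y ∈ K₂, ContinuousAt (fun z : T × V => s (a, z.2)) (a, y) := fun y hy =>
    ContinuousAt.comp (g := fun x => s (a, x)) (f := Prod.snd) (x := (a, y))
      (Sa.sc.continuousAt (Sa.op.mem_nhds (h₂O hy))) continuousAt_snd
  have hpz : ∀ y ∈ K₂, ContinuousAt p (a, y) := fun y hy =>
    hS.pc.continuousAt (hS.op.mem_nhds (h₂O hy))
  have hsz : ∀ y ∈ K₂, ContinuousAt s (a, y) := fun y hy =>
    hS.sc.continuousAt (hS.op.mem_nhds (h₂O hy))
  have e1 : ∀ᶠ b in 𝓝 a, ∀ y ∈ K₂, (b, y) ∈ O ∧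
      IsUnit (p (a, y) * p (b, y) + (1 - p (a, y)) * (1 - p (b, y))) := by
    refine hK₂.eventually_forall_of_forall_eventually fun y hy =>
      (show ∀ᶠ z in 𝓝 (a, y), z ∈ O from hS.op.mem_nhds (h₂O hy)).and ?_
    have hc : ContinuousAt (fun z : T × V =>
        p (a, z.2) * p z + (1 - p (a, z.2)) * (1 - p z)) (a, y) :=
      ((hpa y hy).mul (hpz y hy)).add
        ((continuousAt_const.sub (hpa y hy)).mul (continuousAt_const.sub (hpz y hy)))
    refine hc.eventually (Units.isOpen.mem_nhds ?_)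
    have hp := hid (a, y) (h₂O hy)
    have : p (a, y) * p (a, y) + (1 - p (a, y)) * (1 - p (a, y)) = 1 := by
      rw [sub_mul, one_mul, mul_sub, mul_one, hp, sub_self, sub_zero, add_sub_cancel]
    show IsUnit (p (a, y) * p (a, y) + (1 - p (a, y)) * (1 - p (a, y)))
    rw [this]
    exact isUnit_one
  have e2 : ∀ᶠ b in 𝓝 a, ∀ y ∈ K₂ \ interior K₁,
      ‖(p (a, y) * p (b, y)) (s (b, y)) - s (a, y)‖ < ‖s (a, y)‖ := by
    refine (hK₂.diff isOpen_interior).eventually_forall_of_forall_eventually fun y hy => ?_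
    have hc : ContinuousAt (fun z : T × V =>
        ‖(p (a, z.2) * p z) (s z) - s (a, z.2)‖) (a, y) :=
      ((((hpa y hy.1).mul (hpz y hy.1)).clm_apply (hsz y hy.1)).sub (hsa y hy.1)).norm
    refine hc.eventually_lt (hsa y hy.1).norm ?_
    have hm := hS.mem (a, y) (h₂O hy.1)
    show ‖p (a, y) (p (a, y) (s (a, y))) - s (a, y)‖ < ‖s (a, y)‖
    rw [hm, hm, sub_self, norm_zero, norm_pos_iff]
    exact fun h0 => hy.2 (hZ₁ ⟨h₂O hy.1, h0⟩)
  have e3 : ∀ᶠ b in 𝓝 a, ∀ y, (b, y) ∈ O → s (b, y) = 0 → y ∈ interior K₁ := by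
    have hc : IsCompact (Prod.fst '' ({z | z ∈ O ∧ s z = 0} \ Prod.snd ⁻¹' interior K₁)) :=
      (hS.cpt.diff (isOpen_interior.preimage continuous_snd)).image continuous_fst
    have ha : a ∉ Prod.fst '' ({z | z ∈ O ∧ s z = 0} \ Prod.snd ⁻¹' interior K₁) := by
      rintro ⟨⟨b, y⟩, ⟨h2, h3⟩, rfl⟩
      exact h3 (hZ₁ h2)
    filter_upwards [hc.isClosed.isOpen_compl.mem_nhds ha] with b hb y h2 h3
    by_contra h4
    exact hb ⟨(b, y), ⟨⟨h2, h3⟩, h4⟩, rfl⟩
  filter_upwards [e1, e2, e3] with b b1 b2 b3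
  have Sb := D3.slice hS b
  have hI₂ : interior K₁ ⊆ interior K₂ := interior_subset.trans h₁₂
  have hGa : interior K₂ ⊆ {x | (a, x) ∈ O} := interior_subset.trans h₂O
  have hGb : interior K₂ ⊆ {x | (b, x) ∈ O} := fun x hx => (b1 x (interior_subset hx)).1
  have SaG := D3.res Sa isOpen_interior hGa fun x hx h0 => hI₂ (hZ₁ ⟨hx, h0⟩)
  have SbI := D3.res Sb isOpen_interior (hI₂.trans hGb) b3
  have RG : Rk (interior K₂) (fun x => p (a, x)) (finrank ℂ V) := fun x hx => hR _ (hGa hx)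
  let s₂ : V → W := fun x => (p (a, x) * p (b, x)) (s (b, x))
  let s₃ : V → W := fun x => s (a, x) + (l x : ℂ) • (s₂ x - s (a, x))
  have uc : ContinuousOn (fun x => p (a, x) * p (b, x)) (interior K₂) :=
    SaG.pc.mul (Sb.pc.mono hGb)
  have c₂ : ContinuousOn s₂ (interior K₂) := uc.clm_apply (Sb.sc.mono hGb)
  have c₃ : ContinuousOn s₃ (interior K₂) :=
    SaG.sc.add ((Complex.continuous_ofReal.comp l.continuous).continuousOn.smul (c₂.sub SaG.sc))
  have off : Off (interior K₂) (interior K₂) s₃ (fun x => s (a, x)) :=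
    ⟨tsupport l, lc, ls, fun x _ hx => by
      simp only [s₃, image_eq_zero_of_notMem_tsupport hx, Complex.ofReal_zero, zero_smul,
        add_zero]⟩
  have S₃ : Sect (interior K₂) (fun x => p (a, x)) s₃ := by
    refine ⟨isOpen_interior, SaG.pc, SaG.idem, c₃, fun x hx => ?_, cpt_off SaG.cpt c₃ off⟩
    have m1 : p (a, x) (s (a, x)) = s (a, x) := SaG.mem x hx
    have m2 : p (a, x) (s₂ x) = s₂ x := SaG.idem x hx _
    show p (a, x) (s (a, x) + (l x : ℂ) • (s₂ x - s (a, x))) = _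
    rw [map_add, map_smul, map_sub, m1, m2]
  have z₃ : ∀ x ∈ interior K₂, s₃ x = 0 → x ∈ interior K₁ := by
    intro x hx h0
    by_contra hn
    have h2 : ‖s₂ x - s (a, x)‖ < ‖s (a, x)‖ := b2 x ⟨interior_subset hx, hn⟩
    have h3 : s (a, x) = -((l x : ℂ) • (s₂ x - s (a, x))) := eq_neg_of_add_eq_zero_left h0
    have h4 : ‖s (a, x)‖ = l x * ‖s₂ x - s (a, x)‖ := by
      conv_lhs => rw [h3, norm_neg, norm_smul, Complex.norm_real, Real.norm_of_nonneg (l01 x).1]
    nlinarith [(l01 x).1, (l01 x).2, norm_nonneg (s₂ x - s (a, x))]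
  have d1 := (h1 V W _ _ _ Sa fun x hx => hR _ hx).2.2.1 (interior K₂) (fun x => p (a, x))
    (fun x => s (a, x)) isOpen_interior hGa (fun x hx h0 => hI₂ (hZ₁ ⟨hx, h0⟩))
    (fun _ _ => rfl) fun _ _ => rfl
  have d2 := (h1 V W _ _ _ SaG RG).2.1 s₃ S₃ off.symm
  have d3 := (h1 V W _ _ _ S₃ RG).2.2.1 (interior K₁) (fun x => p (a, x)) s₂ isOpen_interior hI₂
    z₃ (fun _ _ => rfl) fun x hx => by
      have : l x = 1 := l1 (interior_subset hx)
      simp only [s₃, this, Complex.ofReal_one, one_smul, add_sub_cancel]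
  have hal := fun x (hx : x ∈ interior K₁) =>
    D3.alg (hid (a, x) (hGa (hI₂ hx))) (hid (b, x) (hGb (hI₂ hx)))
      (b1 x (interior_subset (hI₂ hx))).2
  have vc : ContinuousOn (fun x => Ring.inverse
      (p (a, x) * p (b, x) + (1 - p (a, x)) * (1 - p (b, x)))) (interior K₁) := by
    intro x hx
    obtain ⟨u, hu⟩ := (b1 x (interior_subset (hI₂ hx))).2
    refine ContinuousAt.comp_continuousWithinAt (g := Ring.inverse) ?_
      (((uc.mono hI₂).add ((continuousOn_const.sub (SaG.pc.mono hI₂)).mul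
        (continuousOn_const.sub SbI.pc))) x hx)
    have := NormedRing.inverse_continuousAt u
    rwa [hu] at this
  have d4 := (h1 V W _ _ _ SbI fun x hx => hR _ (hGb (hI₂ hx))).2.2.2.2 W (fun x => p (a, x)) s₂
    (fun x => p (a, x) * p (b, x))
    (fun x => p (b, x) * Ring.inverse (p (a, x) * p (b, x) + (1 - p (a, x)) * (1 - p (b, x))))
    (uc.mono hI₂) (SbI.pc.mul vc)
    (fun x hx w => DFunLike.congr_fun (hal x hx).1 w)
    (fun x hx w => DFunLike.congr_fun (hal x hx).2.1 w)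
    (fun x hx w => DFunLike.congr_fun (hal x hx).2.2 w) fun _ _ => rfl
  have d5 := (h1 V W _ _ _ Sb fun x hx => hR _ hx).2.2.1 (interior K₁) (fun x => p (b, x))
    (fun x => s (b, x)) isOpen_interior (hI₂.trans hGb) b3 (fun _ _ => rfl) fun _ _ => rfl
  exact d5.symm.trans (d4.symm.trans (d3.trans (d2.symm.trans d1)))

end Pool.Agent.MP_826def_gt.BE
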