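import Pool.Agent.MP_826def_gt.BE.Basic

/-! Invertible real linear maps with determinants of the same sign are joined by a path. -/

namespace Pool.Agent.MP_826def_gt.BE

open Set Matrix

namespace GLc

variable {n : Type} [Fintype n] [DecidableEq n]

/-- The invertible matrices. -/
def S (n : Type) [Fintype n] [DecidableEq n] : Set (Matrix n n ℝ) := {M | M.det ≠ 0}

theorem jmul {A A' B B' : Matrix n n ℝ} (h : JoinedIn (S n) A A') (k : JoinedIn (S n) B B') :
    JoinedIn (S n) (A * B) (A' * B') := by
  obtain ⟨γ, hγ⟩ := h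
  obtain ⟨δ, hδ⟩ := k
  refine ⟨⟨⟨fun t => γ t * δ t, γ.continuous.mul δ.continuous⟩, by simp, by simp⟩, fun t => ?_⟩
  show (γ t * δ t).det ≠ 0
  rw [det_mul]
  exact mul_ne_zero (hγ t) (hδ t)

theorem jpath (f : ℝ → Matrix n n ℝ) (hf : Continuous f)
    (h : ∀ t, 0 ≤ t → t ≤ 1 → (f t).det ≠ 0) : JoinedIn (S n) (f 0) (f 1) :=
  ⟨⟨⟨fun t => f t, hf.comp continuous_subtype_val⟩, rfl, rfl⟩, fun t => h t t.2.1 t.2.2⟩

theorem jtrans {i j : n} (hij : i ≠ j) (c : ℝ) : JoinedIn (S n) 1 (transvection i j c) := by
  have := jpath (fun t => transvection i j (t * c)) (by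
    refine continuous_const.add (continuous_matrix fun a b => ?_)
    simp only [single_apply]
    split_ifs
    · fun_prop
    · fun_prop) (fun t _ _ => by rw [det_transvection_of_ne i j hij]; exact one_ne_zero)
  simpa using this

/-- The diagonal matrix with one special entry. -/
def d (i : n) (c : ℝ) : Matrix n n ℝ := diagonal fun k => if k = i then c else 1

theorem det_d (i : n) (c : ℝ) : (d i c).det = c := by
  simp [d, det_diagonal]

theorem d_mul (i : n) (a b : ℝ) : d i a * d i b = d i (a * b) := by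
  simp only [d, diagonal_mul_diagonal]
  congr 1
  funext k
  split_ifs <;> simp

omit [Fintype n] in
theorem d_one (i : n) : d i 1 = 1 := by
  simp [d]

theorem jd (i : n) {c : ℝ} (hc : 0 < c) : JoinedIn (S n) 1 (d i c) := by
  have := jpath (fun t => d i (1 - t + t * c)) (by
    refine Continuous.matrix_diagonal (continuous_pi fun k => ?_)
    split_ifs
    · fun_prop
    · fun_prop) (fun t h0 h1 => by
      rw [det_d]
      rcases eq_or_lt_of_le h0 with h | h
      · subst h; simp
      · have := mul_pos h hc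
        linarith)
  simpa [d_one] using this

theorem ring_w {R : Type} [Ring R] (a b : R) (ha : a * a = 0) (hb : b * b = 0)
    (hab : a * b * a = a) (hba : b * a * b = b) :
    ((1 + a) * (1 - b) * (1 + a)) * ((1 + a) * (1 - b) * (1 + a)) = 1 - 2 * (a * b + b * a) := by
  have w : (1 + a) * (1 - b) * (1 + a) = 1 + a - b - a * b - b * a := by
    have : (1 + a) * (1 - b) * (1 + a) = 1 + a - b - a * b - b * a + a + a * a - a * b * a := by
      noncomm_ring
    rw [this, ha, hab]; abel
  have h1 : a * (a * b) = 0 := by rw [← mul_assoc, ha, zero_mul]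
  have h2 : a * (b * a) = a := by rw [← mul_assoc, hab]
  have h3 : b * (a * b) = b := by rw [← mul_assoc, hba]
  have h4 : b * (b * a) = 0 := by rw [← mul_assoc, hb, zero_mul]
  have h5 : a * b * b = 0 := by rw [mul_assoc, hb, mul_zero]
  have h6 : b * a * a = 0 := by rw [mul_assoc, ha, mul_zero]
  have h7 : a * b * (a * b) = a * b := by rw [← mul_assoc, hab]
  have h8 : a * b * (b * a) = 0 := by rw [← mul_assoc, h5, zero_mul]
  have h9 : b * a * (a * b) = 0 := by rw [← mul_assoc, h6, zero_mul]
  have h10 : b * a * (b * a) = b * a := by rw [← mul_assoc, hba]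
  rw [w]
  simp only [mul_add, mul_sub, add_mul, sub_mul, mul_one, one_mul, ha, hb, hab, hba, h1, h2, h3, h4,
    h5, h6, h7, h8, h9, h10, two_mul]
  abel

theorem jflip {i j : n} (hij : i ≠ j) : JoinedIn (S n) 1 (d i (-1) * d j (-1)) := by
  have t1 := jtrans hij (1 : ℝ)
  have t2 := jtrans hij.symm (-1 : ℝ)
  have w := jmul (jmul t1 t2) t1
  have w2 := jmul w w
  have e2 : transvection j i (-1 : ℝ) = 1 - single j i (1 : ℝ) := by
    rw [transvection, sub_eq_add_neg, single_neg]
  rw [e2, transvection, ring_w _ _ (by simp [hij.symm]) (by simp [hij]) (by simp) (by simp)] at w2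
  have e : d i (-1) * d j (-1) = 1 - 2 * (single i j (1 : ℝ) * single j i (1 : ℝ) +
      single j i (1 : ℝ) * single i j (1 : ℝ)) := by
    simp only [d, diagonal_mul_diagonal, single_mul_single_same, mul_one, two_mul]
    ext a b
    simp only [diagonal_apply, Matrix.sub_apply, Matrix.add_apply, Matrix.one_apply, single_apply]
    by_cases hab : a = b
    · subst hab
      by_cases h1 : a = i
      · subst h1
        simp [hij, hij.symm]
      · by_cases h2 : a = j
        · subst h2
          simp [hij, hij.symm]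
        · simp [h1, h2, Ne.symm h1, Ne.symm h2]
    · have h1 : ¬(i = a ∧ i = b) := fun h => hab (h.1.symm.trans h.2)
      have h2 : ¬(j = a ∧ j = b) := fun h => hab (h.1.symm.trans h.2)
      simp [hab, h1, h2]
  rw [e]
  simpa using w2

/-- Joined to the normal form of the sign of the determinant. -/
def Q (o : n) (M : Matrix n n ℝ) : Prop :=
  (0 < M.det ∧ JoinedIn (S n) 1 M) ∨ (M.det < 0 ∧ JoinedIn (S n) (d o (-1)) M)

theorem Q.mul {o : n} {A B : Matrix n n ℝ} (h : Q o A) (k : Q o B) : Q o (A * B) := by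
  rcases h with ⟨h, h'⟩ | ⟨h, h'⟩ <;> rcases k with ⟨k, k'⟩ | ⟨k, k'⟩
  · exact Or.inl ⟨by rw [det_mul]; exact mul_pos h k, by simpa using jmul h' k'⟩
  · exact Or.inr ⟨by rw [det_mul]; exact mul_neg_of_pos_of_neg h k, by simpa using jmul h' k'⟩
  · exact Or.inr ⟨by rw [det_mul]; exact mul_neg_of_neg_of_pos h k, by simpa using jmul h' k'⟩
  · exact Or.inl ⟨by rw [det_mul]; exact mul_pos_of_neg_of_neg h k, by
      simpa [d_mul, d_one] using jmul h' k'⟩

theorem q_d (o i : n) {c : ℝ} (hc : c ≠ 0) : Q o (d i c) := by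
  have pos : ∀ c : ℝ, 0 < c → Q o (d i c) := fun c hc => Or.inl ⟨by rwa [det_d], jd i hc⟩
  rcases lt_or_gt_of_ne hc with h | h
  · have r : JoinedIn (S n) (d o (-1)) (d o (-1)) :=
      JoinedIn.refl (by show (d o (-1)).det ≠ 0; rw [det_d]; norm_num)
    have m : Q o (d i (-1)) := by
      refine Or.inr ⟨by rw [det_d]; norm_num, ?_⟩
      by_cases e : i = o
      · rw [e]; exact r
      · have := jmul (jflip e) r
        rwa [one_mul, mul_assoc, d_mul, neg_mul_neg, one_mul, d_one, mul_one] at this
    have := m.mul (pos (-c) (by linarith))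
    rwa [d_mul, neg_mul_neg, one_mul] at this
  · exact pos c h

theorem q_diag (o : n) (D : n → ℝ) (hD : ∀ k, D k ≠ 0) : Q o (diagonal D) := by
  have key : ∀ s : Finset n, Q o (diagonal fun k => if k ∈ s then D k else 1) := by
    intro s
    induction s using Finset.induction_on with
    | empty =>
      have := q_d o o (one_ne_zero (α := ℝ))
      simpa [d_one] using this
    | insert i s hi ih =>
      have := (q_d o i (hD i)).mul ih
      rw [d, diagonal_mul_diagonal] at this
      have e : (fun k => if k ∈ insert i s then D k else 1) =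
          fun k => (if k = i then D i else 1) * if k ∈ s then D k else 1 := by
        funext k
        by_cases e : k = i
        · subst e; simp [hi]
        · simp [e]
      rw [e]
      exact this
  simpa using key Finset.univ

theorem q_all (o : n) (M : Matrix n n ℝ) (hM : M.det ≠ 0) : Q o M := by
  refine diagonal_transvection_induction_of_det_ne_zero (Q o) M hM (fun D hD => ?_)
    (fun t => ?_) (fun A B _ _ h k => h.mul k)
  · rw [det_diagonal, Finset.prod_ne_zero_iff] at hD
    exact q_diag o D fun k => hD k (Finset.mem_univ k)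
  · exact Or.inl ⟨by rw [t.det]; exact one_pos, jtrans t.hij t.c⟩

theorem jmat (A B : Matrix n n ℝ) (h : 0 < A.det * B.det) : JoinedIn (S n) A B := by
  have hA : A.det ≠ 0 := left_ne_zero_of_mul h.ne'
  have hB : B.det ≠ 0 := right_ne_zero_of_mul h.ne'
  rcases isEmpty_or_nonempty n with e | ⟨⟨o⟩⟩
  · rw [Subsingleton.elim A B]
    exact JoinedIn.refl hB
  · rcases q_all o A hA with ⟨a, a'⟩ | ⟨a, a'⟩ <;> rcases q_all o B hB with ⟨b, b'⟩ | ⟨b, b'⟩
    · exact a'.symm.trans b'
    · exact absurd h (not_lt.2 (mul_neg_of_pos_of_neg a b).le)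
    · exact absurd h (not_lt.2 (mul_neg_of_neg_of_pos a b).le)
    · exact a'.symm.trans b'

end GLc

theorem sGL : S_GL := by
  intro V _ _ _ A B h
  let b := Module.finBasis ℝ V
  let φ : Matrix (Fin (Module.finrank ℝ V)) (Fin (Module.finrank ℝ V)) ℝ ≃ₗ[ℝ] (V →L[ℝ] V) :=
    (Matrix.toLin b b).trans LinearMap.toContinuousLinearMap
  have hd : ∀ M, (φ M).det = M.det := fun M => LinearMap.det_toLin b M
  have hc : Continuous φ := φ.toLinearMap.continuous_of_finiteDimensional
  have j := GLc.jmat (φ.symm A) (φ.symm B) (by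
    rw [← hd, ← hd, φ.apply_symm_apply, φ.apply_symm_apply]; exact h)
  have k := j.map hc
  rw [φ.apply_symm_apply, φ.apply_symm_apply] at k
  refine k.mono ?_
  rintro _ ⟨M, hM, rfl⟩
  show (φ M).det ≠ 0
  rw [hd]
  exact hM

end Pool.Agent.MP_826def_gt.BE
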