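import Pool.Agent.MP_826def_gt.BE.Basic

/-! The sign of a real bijection onto a complex subspace, and local trivialisations. -/

namespace Pool.Agent.MP_826def_gt.BE

open Set Module

theorem sLd : S_Ld := by
  intro V W _ _ _ _ _ _ _ _ _ _ B q hB hr
  classical
  let R : Submodule ℂ W := LinearMap.range (q : W →ₗ[ℂ] W)
  have hmem : ∀ v, B v ∈ R := fun v => by
    have : B v ∈ range q := hr ▸ mem_range_self v
    obtain ⟨w, hw⟩ := this
    exact ⟨w, hw⟩
  let B' : V →ₗ[ℝ] R :=
    { toFun := fun v => ⟨B v, hmem v⟩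
      map_add' := fun a b => Subtype.ext (map_add B a b)
      map_smul' := fun c a => Subtype.ext (map_smul B c a) }
  have hB' : Function.Bijective B' := by
    refine ⟨fun a b h => hB (congrArg Subtype.val h), fun y => ?_⟩
    obtain ⟨w, hw⟩ := y.2
    have : (y : W) ∈ range B := hr ▸ ⟨w, hw⟩
    obtain ⟨v, hv⟩ := this
    exact ⟨v, Subtype.ext hv⟩
  have hfin : finrank ℂ R = finrank ℂ V := by
    have h1 := (LinearEquiv.ofBijective B' hB').finrank_eq
    rw [← finrank_mul_finrank ℝ ℂ V, ← finrank_mul_finrank ℝ ℂ R, Complex.finrank_real_complex]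
      at h1
    omega
  let φ : R ≃ₗ[ℂ] V := LinearEquiv.ofFinrankEq R V hfin
  let C : V →ₗ[ℝ] V := ((φ : R →ₗ[ℂ] V).restrictScalars ℝ).comp B'
  have hC : LinearMap.det C ≠ 0 := by
    have : Function.Bijective C := φ.bijective.comp hB'
    exact (LinearEquiv.isUnit_det' (LinearEquiv.ofBijective C this)).ne_zero
  have key : ∀ j : W →L[ℂ] V, ∃ n : ℝ, 0 ≤ n ∧
      ((j.restrictScalars ℝ).comp B).det = n * LinearMap.det C := by
    intro j
    let g : V →ₗ[ℂ] V := ((j : W →ₗ[ℂ] V).comp R.subtype).comp (φ.symm : V →ₗ[ℂ] R)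
    refine ⟨Complex.normSq (LinearMap.det g), Complex.normSq_nonneg _, ?_⟩
    rw [← Algebra.norm_complex_apply, ← LinearMap.det_restrictScalars, ← LinearMap.det_comp]
    unfold ContinuousLinearMap.det
    congr 1
    ext v
    simp [g, C, B']
  obtain ⟨j0, hj0⟩ := LinearMap.exists_extend (φ : R →ₗ[ℂ] V)
  have h0 : (((LinearMap.toContinuousLinearMap j0).restrictScalars ℝ).comp B).det =
      LinearMap.det C := by
    unfold ContinuousLinearMap.det
    congr 1
    ext v
    have := LinearMap.congr_fun hj0 (B' v)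
    simpa [C, B'] using this
  refine ⟨⟨_, h0 ▸ hC⟩, fun j hj => ?_⟩
  obtain ⟨n, hn, e⟩ := key j
  have hn' : 0 < n := lt_of_le_of_ne hn fun h => hj (by rw [e, ← h, zero_mul])
  unfold ld
  rcases lt_or_gt_of_ne hC with h | h
  · rw [if_neg, e, sign_neg (mul_neg_of_pos_of_neg hn' h)]
    · rfl
    · rintro ⟨j', hj'⟩
      obtain ⟨m, hm, e'⟩ := key j'
      rw [e'] at hj'
      nlinarith
  · rw [if_pos ⟨_, h0 ▸ h⟩, e, sign_pos (mul_pos hn' h)]
    rfl

theorem sChart : S_Chart := by
  intro T W F _ _ _ _ _ _ _ O p hO hp hi x0 hx0 hrk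
  have : CompleteSpace W := FiniteDimensional.complete ℂ W
  let R : Submodule ℂ W := LinearMap.range (p x0 : W →ₗ[ℂ] W)
  let φ : R ≃ₗ[ℂ] F := LinearEquiv.ofFinrankEq R F hrk
  let j : W →L[ℂ] F := LinearMap.toContinuousLinearMap
    ((φ : R →ₗ[ℂ] F).comp (p x0 : W →ₗ[ℂ] W).rangeRestrict)
  let i : F →L[ℂ] W := LinearMap.toContinuousLinearMap (R.subtype.comp (φ.symm : F →ₗ[ℂ] R))
  have hji : ∀ y, j (i y) = y := fun y => by
    obtain ⟨w, hw⟩ := (φ.symm y).2
    have h1 : (p x0 : W →ₗ[ℂ] W).rangeRestrict (φ.symm y : W) = φ.symm y := by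
      refine Subtype.ext ?_
      change p x0 (φ.symm y : W) = (φ.symm y : W)
      rw [← hw]
      exact hi x0 hx0 w
    change φ ((p x0 : W →ₗ[ℂ] W).rangeRestrict (φ.symm y : W)) = y
    rw [h1, LinearEquiv.apply_symm_apply]
  have hij : ∀ w, i (j w) = p x0 w := fun w => by
    change (φ.symm (φ ((p x0 : W →ₗ[ℂ] W).rangeRestrict w)) : W) = p x0 w
    rw [LinearEquiv.symm_apply_apply]
    rfl
  have hpp : ∀ x ∈ O, p x * p x = p x := fun x hx => ContinuousLinearMap.ext (hi x hx)
  let u : T → W →L[ℂ] W := fun x => p x * p x0 + (1 - p x) * (1 - p x0)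
  have hu : ContinuousOn u O :=
    (hp.mul continuousOn_const).add ((continuousOn_const.sub hp).mul continuousOn_const)
  have hu0 : u x0 = 1 := by
    simp only [u, sub_mul, mul_sub, one_mul, mul_one, hpp x0 hx0]
    abel
  have hup : ∀ x ∈ O, u x * p x0 = p x * u x := fun x hx => by
    simp only [u, sub_mul, mul_sub, add_mul, mul_add, one_mul, mul_one, mul_assoc, hpp x0 hx0,
      ← mul_assoc (p x) (p x), hpp x hx]
    abel
  refine ⟨O ∩ u ⁻¹' {a | IsUnit a}, ⟨hx0, by simp [hu0]⟩, inter_subset_left,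
    hu.isOpen_inter_preimage hO Units.isOpen, fun x => j.comp (Ring.inverse (u x)),
    fun x => (u x).comp i, ?_, ?_, fun x hx y => ?_, fun x hx w => ?_⟩
  · refine continuousOn_const.clm_comp fun x hx => ?_
    obtain ⟨a, ha⟩ : IsUnit (u x) := hx.2
    have h1 : ContinuousAt Ring.inverse (u x) := ha ▸ NormedRing.inverse_continuousAt a
    exact h1.comp_continuousWithinAt ((hu x hx.1).mono inter_subset_left)
  · exact (hu.mono inter_subset_left).clm_comp continuousOn_const
  · have h1 := Ring.inverse_mul_cancel (u x) hx.2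
    change j ((Ring.inverse (u x) * u x) (i y)) = y
    rw [h1]
    exact hji y
  · have h1 := Ring.mul_inverse_cancel (u x) hx.2
    change u x (i (j (Ring.inverse (u x) w))) = p x w
    rw [hij]
    change (u x * p x0 * Ring.inverse (u x)) w = p x w
    rw [hup x hx.1, mul_assoc, h1, mul_one]

end Pool.Agent.MP_826def_gt.BE
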