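import Pool.Agent.MP_826def_gt.BE.Basic

/-! General position in a chart. -/

namespace Pool.Agent.MP_826def_gt.BE

open Set Module Filter Topology MeasureTheory

/-- Small regular values. -/
theorem small_reg {D F : Type} [NormedAddCommGroup D] [NormedSpace ℝ D] [FiniteDimensional ℝ D]
    [NormedAddCommGroup F] [NormedSpace ℝ F] [FiniteDimensional ℝ F]
    (hd : finrank ℝ D ≤ finrank ℝ F) {G : D → F} (hG : Differentiable ℝ G) {δ : ℝ} (hδ : 0 < δ) :
    ∃ y : F, ‖y‖ < δ ∧ ∀ x, G x = y → Function.Bijective (fderiv ℝ G x) := by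
  obtain ⟨ι, hι⟩ : ∃ ι : D →ₗ[ℝ] F, Function.Injective ι := by
    refine Module.Free.exists_linearMap_injective_of_linearIndependent_of_rank_le
      (Module.finBasis ℝ F).linearIndependent ?_
    rw [← Module.finrank_eq_rank, Cardinal.mk_fin]
    exact Nat.cast_le.2 hd
  obtain ⟨π₀, hπ⟩ := ι.exists_leftInverse_of_injective (LinearMap.ker_eq_bot.2 hι)
  let π : F →L[ℝ] D := LinearMap.toContinuousLinearMap π₀
  have h1 : ∀ x, π (ι x) = x := fun x => LinearMap.congr_fun hπ x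
  borelize F
  have h2 : ∀ w, HasFDerivAt (fun w => G (π w)) ((fderiv ℝ G (π w)).comp π) w := fun w =>
    (hG (π w)).hasFDerivAt.comp w π.hasFDerivAt
  have h3 := addHaar_image_eq_zero_of_det_fderivWithin_eq_zero (Measure.addHaar (G := F))
    (s := {w | ((fderiv ℝ G (π w)).comp π).det = 0}) (fun w _ => (h2 w).hasFDerivWithinAt)
    fun _ h => h
  obtain ⟨y, hy, hy'⟩ := not_subset.1 fun h => (Metric.measure_ball_pos
    (Measure.addHaar (G := F)) 0 hδ).ne' (measure_mono_null h h3)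
  refine ⟨y, mem_ball_zero_iff.1 hy, fun x hx => ?_⟩
  have h4 : ((fderiv ℝ G x).comp π).det ≠ 0 := fun h =>
    hy' ⟨ι x, by simpa only [mem_ofPred_eq, h1] using h, by simp only [h1, hx]⟩
  have h5 : Function.Bijective ((fderiv ℝ G x).comp π) :=
    (((fderiv ℝ G x).comp π).toContinuousLinearEquivOfDetNeZero h4).bijective
  refine ⟨fun a b h => hι (h5.1 ?_), fun z => (h5.2 z).elim fun w hw => ⟨π w, hw⟩⟩
  simpa only [ContinuousLinearMap.comp_apply, h1] using h

theorem sN1 : S_N1 := by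
  intro D F _ _ _ _ _ _ f Ω R hd hΩ hR hf hZ
  obtain ⟨K₁, k1, z1, s1⟩ := exists_compact_between hZ hΩ fun _ h => h.1
  obtain ⟨K₂, k2, z2, s2⟩ := exists_compact_between k1 hΩ s1
  obtain ⟨δ, hδ, hδ'⟩ : ∃ δ > 0, ∀ x ∈ (K₂ \ interior K₁) ∩ R, δ ≤ ‖f x‖ := by
    refine ((k2.diff isOpen_interior).inter_right hR).exists_forall_le'
      (hf.norm.mono fun _ h => s2 h.1.1) fun x hx => norm_pos_iff.2 fun h => ?_
    exact hx.1.2 (z1 ⟨s2 hx.1.1, hx.2, h⟩)
  obtain ⟨μ, m1, m0, -, mI⟩ := exists_continuous_one_zero_of_isCompact k1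
    (isOpen_interior (s := K₂)).isClosed_compl (disjoint_compl_right_iff_subset.2 z2)
  have : TietzeExtension.{0, 0} F := TietzeExtension.of_tvs ℝ
  obtain ⟨f', hf'⟩ := ContinuousMap.exists_restrict_eq k2.isClosed
    (⟨K₂.domRestrict f, (hf.mono s2).domRestrict⟩ : C(K₂, F))
  have e1 : ∀ x ∈ K₂, f' x = f x := fun x hx => DFunLike.congr_fun hf' ⟨x, hx⟩
  obtain ⟨G, g1, g2, -⟩ := f'.continuous.exists_contDiff_approx 1 (ε := fun _ => δ / 2)
    continuous_const fun _ => half_pos hδ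
  have g3 : Differentiable ℝ G := g1.differentiable (by simp)
  obtain ⟨y, y1, y2⟩ := small_reg hd g3 (half_pos hδ)
  have m2 : ∀ x, x ∉ K₂ → μ x = 0 := fun x hx => m0 fun h => hx (interior_subset h)
  refine ⟨fun x => f x + μ x • (G x - y - f x), hf.add (μ.continuous.continuousOn.smul
    ((g3.continuous.continuousOn.sub continuousOn_const).sub hf)),
    ⟨K₂, k2, s2, fun x _ hx => by simp only [m2 x hx, zero_smul, add_zero]⟩,
    fun z hz hz' h0 => ?_⟩
  by_cases h1 : z ∈ interior K₁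
  · have e2 : (fun x => f x + μ x • (G x - y - f x)) =ᶠ[𝓝 z] fun x => G x - y := by
      filter_upwards [isOpen_interior.mem_nhds h1] with x hx
      simp [m1 (interior_subset hx)]
    exact ⟨_, ((g3 z).hasFDerivAt.sub_const y).congr_of_eventuallyEq e2,
      y2 z (sub_eq_zero.1 (e2.eq_of_nhds.symm.trans h0))⟩
  · exfalso
    by_cases h2 : z ∈ K₂
    · have a1 := hδ' z ⟨⟨h2, h1⟩, hz'⟩
      have a2 := g2 z
      rw [e1 z h2, dist_eq_norm] at a2
      have a3 : ‖G z - y - f z‖ ≤ ‖G z - f z‖ + ‖y‖ := by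
        rw [sub_right_comm]
        exact norm_sub_le _ _
      have a4 : ‖f z‖ ≤ ‖G z - y - f z‖ := by
        rw [eq_neg_of_add_eq_zero_left h0, norm_neg, norm_smul, Real.norm_of_nonneg (mI z).1,
          ← eq_neg_of_add_eq_zero_left h0]
        exact mul_le_of_le_one_left (norm_nonneg _) (mI z).2
      linarith
    · exact h1 (z1 ⟨hz, hz', by simpa only [m2 z h2, zero_smul, add_zero] using h0⟩)

end Pool.Agent.MP_826def_gt.BE
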