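import Pool.Agent.MP_826def_gt.BE.D1
import Pool.Agent.MP_826def_gt.BE.D2
import Pool.Agent.MP_826def_gt.BE.D3
import Pool.Agent.MP_826def_gt.BE.N1
import Pool.Agent.MP_826def_gt.BE.B0
import Pool.Agent.MP_826def_gt.BE.Ld
import Pool.Agent.MP_826def_gt.BE.GL

/-! General position and the degree of sections, without hypotheses. -/

namespace Pool.Agent.MP_826def_gt.BE

theorem sN : S_N := sNOf sN1 sChart

theorem sB : S_B := sBOf sN1 sChart sB0 sLd

theorem sD1 : S_D1 := sD1Of sN sB sLd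

theorem sD2 : S_D2 := sD2Of sN sLd sD1

theorem sD3 : S_D3 := sD3Of sD1

end Pool.Agent.MP_826def_gt.BE
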