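import Pool.Agent.MP_826def_gt.BE.N

/-! The sum of the signs of the zeros depends only on the values outside a compact set. -/

namespace Pool.Agent.MP_826def_gt.BE

open Set Module Filter Topology

variable {V W : Type} [NormedAddCommGroup V] [NormedSpace ℂ V] [FiniteDimensional ℂ V]
  [NormedSpace ℝ V] [IsScalarTower ℝ ℂ V] [NormedAddCommGroup W] [NormedSpace ℂ W]
  [FiniteDimensional ℂ W] [NormedSpace ℝ W] [IsScalarTower ℝ ℂ W]

theorem fdR (V : Type) [NormedAddCommGroup V] [NormedSpace ℂ V] [FiniteDimensional ℂ V]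
    [NormedSpace ℝ V] [IsScalarTower ℝ ℂ V] : FiniteDimensional ℝ V := Module.Finite.trans ℂ V

theorem rkR (V : Type) [NormedAddCommGroup V] [NormedSpace ℂ V] [FiniteDimensional ℂ V]
    [NormedSpace ℝ V] [IsScalarTower ℝ ℂ V] : finrank ℝ V = 2 * finrank ℂ V := by
  rw [← Module.finrank_mul_finrank ℝ ℂ V, Complex.finrank_real_complex]

theorem det_ne_of_inj {V : Type} [NormedAddCommGroup V] [NormedSpace ℝ V] [FiniteDimensional ℝ V]
    {A : V →L[ℝ] V} (h : Function.Injective A) : A.det ≠ 0 := fun h0 =>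
  (LinearMap.det_eq_zero_iff_ker_ne_bot.1 h0) (LinearMap.ker_eq_bot.2 h)

/-- A nondegenerate zero read in a chart. -/
theorem chart_zero (hL : S_Ld) {G : Set V} {p : V → W →L[ℂ] W} {s : V → W} {τ : V → W →L[ℂ] V}
    {σ : V → V →L[ℂ] W} (hG : IsOpen G) (hτ : ContinuousOn τ G)
    (hi : ∀ x ∈ G, ∀ w, p x (p x w) = p x w) (hστ : ∀ x ∈ G, ∀ w, σ x (τ x w) = p x w) {z : V}
    (hz : z ∈ G) (h0 : s z = 0) (hn : NiceAt p s z) :
    DifferentiableAt ℝ (fun x => τ x (s x)) z ∧ (fderiv ℝ (fun x => τ x (s x)) z).det ≠ 0 ∧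
      ld (fderiv ℝ s z) = (SignType.sign (fderiv ℝ (fun x => τ x (s x)) z).det : ℤ) := by
  have := fdR V
  obtain ⟨B, b1, b2, b3⟩ := hn
  have hf := hasF_app (hτ.continuousAt (hG.mem_nhds hz)) b1 h0
  have hB : ∀ a, p z (B a) = B a := fun a => by
    obtain ⟨w, hw⟩ : B a ∈ range (p z) := b3 ▸ mem_range_self a
    rw [← hw, hi z hz]
  have hd : (((τ z).restrictScalars ℝ).comp B).det ≠ 0 := det_ne_of_inj fun a b hab => b2 (by
    have : σ z (τ z (B a)) = σ z (τ z (B b)) := congrArg (σ z) hab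
    rwa [hστ z hz, hστ z hz, hB, hB] at this)
  rw [hf.fderiv, b1.fderiv]
  exact ⟨hf.differentiableAt, hd, (hL V W B (p z) b2 b3).2 _ hd⟩

theorem chartB (h0 : S_B0) (hL : S_Ld) {O G : Set V} {p : V → W →L[ℂ] W} {s t : V → W}
    (hs : Sect O p s) (ht : Sect O p t) (hG : Chart V p G) (hGO : G ⊆ O) (ns : Nice O p s)
    (nt : Nice O p t) (off : Off O G s t) : dsum O s = dsum O t := by
  have := fdR V
  obtain ⟨hGo, τ, σ, hτ, -, -, hστ⟩ := hG
  obtain ⟨K, hK, hKG, he⟩ := off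
  have e1 : ∀ u : V → W, Sect O p u →
      {x | x ∈ G ∧ τ x (u x) = 0} = {x | x ∈ O ∧ u x = 0} ∩ G := fun u hu => by
    refine Set.ext fun x => ⟨fun hx => ⟨⟨hGO hx.1, ?_⟩, hx.1⟩, fun hx => ⟨hx.2, ?_⟩⟩
    · rw [← hu.mem x (hGO hx.1), ← hστ x hx.1, hx.2, map_zero]
    · rw [hx.1.2, map_zero]
  have e2 : ∀ u : V → W, Sect O p u → Nice O p u → ∀ z ∈ G, τ z (u z) = 0 →
      DifferentiableAt ℝ (fun x => τ x (u x)) z ∧ (fderiv ℝ (fun x => τ x (u x)) z).det ≠ 0 ∧
      ld (fderiv ℝ u z) = (SignType.sign (fderiv ℝ (fun x => τ x (u x)) z).det : ℤ) :=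
    fun u hu nu z hz h => by
      have h' : u z = 0 := ((e1 u hu).subset ⟨hz, h⟩).1.2
      exact chart_zero hL hGo hτ (fun x hx => hs.idem x (hGO hx)) hστ hz h' (nu z (hGO hz) h')
  have key := h0 V (fun x => τ x (s x)) (fun x => τ x (t x)) G hGo (hτ.clm_apply (hs.sc.mono hGO))
    (hτ.clm_apply (ht.sc.mono hGO))
    ⟨K, hK, hKG, fun x hx hk => congrArg (τ x) (he x (hGO hx) hk)⟩
    (by rw [e1 s hs]; exact (hs.fin ns).inter_of_left _)
    (by rw [e1 t ht]; exact (ht.fin nt).inter_of_left _)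
    (fun z hz h => ⟨(e2 s hs ns z hz h).1, (e2 s hs ns z hz h).2.1⟩)
    (fun z hz h => ⟨(e2 t ht nt z hz h).1, (e2 t ht nt z hz h).2.1⟩)
  rw [← finsum_mem_congr rfl fun z hz => (e2 s hs ns z hz.1 hz.2).2.2,
    ← finsum_mem_congr rfl fun z hz => (e2 t ht nt z hz.1 hz.2).2.2, e1 s hs, e1 t ht] at key
  unfold dsum
  rw [← finsum_mem_inter_add_sdiff G (hs.fin ns), ← finsum_mem_inter_add_sdiff G (ht.fin nt), key]
  congr 1
  refine finsum_mem_congr (Set.ext fun x => ⟨fun hx => ?_, fun hx => ?_⟩) fun z hz => ?_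
  · exact ⟨⟨hx.1.1, (he x hx.1.1 fun h => hx.2 (hKG h)).symm.trans hx.1.2⟩, hx.2⟩
  · exact ⟨⟨hx.1.1, (he x hx.1.1 fun h => hx.2 (hKG h)).trans hx.1.2⟩, hx.2⟩
  · rw [(off_nhds hs.op hK he hz.1.1 fun h => hz.2 (hKG h)).fderiv_eq]

/-- A cutoff combination of two sections. -/
theorem Sect.mix {T W : Type} [TopologicalSpace T] [T2Space T] [NormedAddCommGroup W]
    [NormedSpace ℂ W] {O : Set T} {p : T → W →L[ℂ] W} {s t : T → W} (hs : Sect O p s)
    (tc : ContinuousOn t O) (tm : ∀ x ∈ O, p x (t x) = t x) {l : T → ℂ} (hl : ContinuousOn l O)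
    (off : Off O O (fun x => s x + l x • (t x - s x)) s) :
    Sect O p fun x => s x + l x • (t x - s x) := by
  have hc : ContinuousOn (fun x => s x + l x • (t x - s x)) O := hs.sc.add (hl.smul (tc.sub hs.sc))
  refine ⟨hs.op, hs.pc, hs.idem, hc, fun x hx => ?_, cpt_off hs.cpt hc off⟩
  rw [map_add, map_smul, map_sub, hs.mem x hx, tm x hx]

/-- A cutoff function. -/
theorem cutoff {T : Type} [TopologicalSpace T] [T2Space T] [LocallyCompactSpace T] {B G : Set T}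
    (hB : IsCompact B) (hG : IsOpen G) (hBG : B ⊆ G) :
    ∃ (l : T → ℝ) (C : Set T), Continuous l ∧ IsCompact C ∧ C ⊆ G ∧ (∀ x ∈ B, l x = 1) ∧
      (∀ x, x ∉ C → l x = 0) ∧ ∀ x, l x ∈ Icc (0 : ℝ) 1 := by
  obtain ⟨C, hC, hBC, hCG⟩ := exists_compact_between hB hG hBG
  obtain ⟨l, l1, l0, -, lm⟩ := exists_continuous_one_zero_of_isCompact hB
    (isOpen_interior (s := C)).isClosed_compl (disjoint_compl_right_iff_subset.2 hBC)
  exact ⟨l, C, l.continuous, hC, hCG, l1, fun x hx => l0 fun h => hx (interior_subset h), lm⟩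

theorem indB (h1 : S_N1) (h0 : S_B0) (hL : S_Ld) {O : Set V} {p : V → W →L[ℂ] W}
    (l : List (Set V)) : (∀ G ∈ l, IsOpen G ∧ G ⊆ O ∧ Chart V p G) → ∀ s t : V → W,
    Sect O p s → Sect O p t → Nice O p s → Nice O p t → Off O (⋃ G ∈ l, G) s t →
    dsum O s = dsum O t := by
  have := fdR V
  induction l with
  | nil =>
    rintro _ s t hs - - - ⟨K, hK, hKl, he⟩
    have hk : ∀ x, x ∉ K := fun x h => by simpa using hKl h
    refine finsum_mem_congr (Set.ext fun x => ⟨fun hx => ?_, fun hx => ?_⟩) fun z hz => ?_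
    · exact ⟨hx.1, (he x hx.1 (hk x)).symm.trans hx.2⟩
    · exact ⟨hx.1, (he x hx.1 (hk x)).trans hx.2⟩
    · rw [(off_nhds hs.op hK he hz.1 (hk z)).fderiv_eq]
  | cons G l ih =>
    rintro hl s t hs ht ns nt ⟨K, hK, hKl, he⟩
    obtain ⟨hG, hGO, hc⟩ := hl G List.mem_cons_self
    have hU : IsOpen (⋃ U ∈ l, U) := isOpen_biUnion fun U hU => (hl U (List.mem_cons_of_mem _ hU)).1
    rw [union_cons] at hKl
    obtain ⟨B, A, hB, hA, hBG, hAU, rfl⟩ := hK.binary_compact_cover hG hU hKl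
    obtain ⟨m, C, hm, hC, hCG, m1, m0, -⟩ := cutoff hB hG hBG
    let u : V → W := fun x => s x + (m x : ℂ) • (t x - s x)
    have us : ∀ x ∈ O, x ∉ C → u x = s x := fun x _ hx => by
      simp only [u, m0 x hx, Complex.ofReal_zero, zero_smul, add_zero]
    have ut : ∀ x ∈ O, x ∉ A → u x = t x := fun x hx hA => by
      by_cases hb : x ∈ B
      · simp only [u, m1 x hb, Complex.ofReal_one, one_smul, add_sub_cancel]
      · simp only [u, he x hx fun h => h.elim hb hA, sub_self, smul_zero, add_zero]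
    have hu : Sect O p u := hs.mix ht.sc ht.mem (Complex.continuous_ofReal.comp hm).continuousOn
      ⟨C, hC, hCG.trans hGO, us⟩
    obtain ⟨v, hv, off, vn⟩ := rel (F := V) h1 hu le_rfl (hc.mono (hG.inter hU) inter_subset_left)
      (inter_subset_left.trans hGO) isClosed_univ (hC.inter hA) (inter_subset_inter hCG hAU)
      fun z hz _ hz' z0 => by
        by_cases hzC : z ∈ C
        · have hzA : z ∉ A := fun h => hz' ⟨hzC, h⟩
          exact (nt z hz (ut z hz hzA ▸ z0)).congr rfl (off_nhds hs.op hA ut hz hzA)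
        · exact (ns z hz (us z hz hzC ▸ z0)).congr rfl (off_nhds hs.op hC us hz hzC)
    have nv : Nice O p v := fun z hz => vn z hz trivial
    rw [← chartB h0 hL hv hs hc hGO nv ns ((off.mono le_rfl inter_subset_left).trans
      ⟨C, hC, hCG, us⟩)]
    exact ih (fun U hU => hl U (List.mem_cons_of_mem _ hU)) v t hv ht nv nt
      ((off.mono le_rfl inter_subset_right).trans ⟨A, hA, hAU, ut⟩)

theorem sBOf : S_BOf := by
  rintro h1 hC h0 hL V W _ _ _ _ _ _ _ _ _ _ O p s t hs ht hk ns nt ⟨K, hK, hKO, he⟩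
  obtain ⟨l, hl, hc⟩ := cover (fun G => G ⊆ O ∧ Chart V p G) (O := O) (fun x hx => by
    obtain ⟨G, a, b, c⟩ := hC V W V O p hs.op hs.pc hs.idem x hx (hk x hx)
    exact ⟨G, a, c.1, b, c⟩) hK hKO
  exact indB h1 h0 hL l hl s t hs ht ns nt ⟨K, hK, hc, he⟩

end Pool.Agent.MP_826def_gt.BE
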