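import Pool.Agent.MP_826def_gt.BE.Spec

/-! Basic facts on nondegenerate zeros. -/

namespace Pool.Agent.MP_826def_gt.BE

open Set Module Filter Topology Asymptotics

variable {D W W' : Type} [NormedAddCommGroup D] [NormedSpace ℝ D] [NormedAddCommGroup W]
  [NormedSpace ℂ W] [NormedSpace ℝ W] [IsScalarTower ℝ ℂ W] [NormedAddCommGroup W']
  [NormedSpace ℂ W'] [NormedSpace ℝ W'] [IsScalarTower ℝ ℂ W']

/-- A continuous family of linear maps applied to a function with a differentiable zero. -/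
theorem hasF_app {u : D → W →L[ℂ] W'} {s : D → W} {z : D} {B : D →L[ℝ] W}
    (hu : ContinuousAt u z) (hs : HasFDerivAt s B z) (h0 : s z = 0) :
    HasFDerivAt (fun x => u x (s x)) (((u z).restrictScalars ℝ).comp B) z := by
  have h1 : HasFDerivAt (fun x => u z (s x)) (((u z).restrictScalars ℝ).comp B) z :=
    ((u z).restrictScalars ℝ).hasFDerivAt.comp z hs
  have h2 : HasFDerivAt (fun x => (u x - u z) (s x)) (0 : D →L[ℝ] W') z := by
    rw [hasFDerivAt_iff_isLittleO]
    simp only [h0, map_zero, sub_zero, zero_apply]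
    have a1 : (fun x => s x) =O[𝓝 z] fun x => x - z := by
      simpa only [h0, sub_zero] using hs.isBigO_sub
    have a2 : (fun x => ‖u x - u z‖) =o[𝓝 z] fun _ => (1 : ℝ) := by
      rw [isLittleO_one_iff]
      have := (hu.tendsto.sub_const (u z)).norm
      rwa [sub_self, norm_zero] at this
    have a3 : (fun x => (u x - u z) (s x)) =O[𝓝 z] fun x => ‖u x - u z‖ * ‖s x‖ :=
      IsBigO.of_bound' (Eventually.of_forall fun x => ((u x - u z).le_opNorm _).trans
        (le_abs_self _))
    have a4 := a2.mul_isBigO a1.norm_norm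
    simp only [one_mul] at a4
    exact (a3.trans_isLittleO a4).of_norm_right
  have h3 := h1.add h2
  rw [add_zero] at h3
  refine h3.congr_of_eventuallyEq (Eventually.of_forall fun x => ?_)
  simp

omit [NormedSpace ℂ W] [IsScalarTower ℝ ℂ W] in
/-- A zero with injective derivative is isolated. -/
theorem isolated [FiniteDimensional ℝ D] {s : D → W} {z : D} {B : D →L[ℝ] W}
    (hs : HasFDerivAt s B z) (hB : Function.Injective B) (h0 : s z = 0) :
    ∀ᶠ x in 𝓝 z, s x = 0 → x = z := by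
  obtain ⟨C, -, hC⟩ := (B : D →ₗ[ℝ] W).exists_antilipschitzWith (LinearMap.ker_eq_bot.2 hB)
  have := hs.eventually_ne (c := 0) ⟨C, hC⟩
  rw [eventually_nhdsWithin_iff] at this
  filter_upwards [this] with x hx h
  by_contra hne
  exact hx hne h

omit [IsScalarTower ℝ ℂ W] in
/-- A compact set of nondegenerate zeros is finite. -/
theorem fin_of_nice [FiniteDimensional ℝ D] {p : D → W →L[ℂ] W} {s : D → W} {Z : Set D}
    (hZ : IsCompact Z) (h : ∀ z ∈ Z, s z = 0 ∧ NiceAt p s z) : Z.Finite := by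
  refine hZ.finite (isDiscrete_iff_discreteTopology.2 (discreteTopology_subtype_iff.2 ?_))
  intro z hz
  obtain ⟨h0, B, hs, hB, -⟩ := h z hz
  rw [inf_principal_eq_bot, mem_nhdsWithin_iff_eventually]
  filter_upwards [isolated hs hB h0] with x hx hne hxZ
  exact hne (hx (h x hxZ).1)

omit [IsScalarTower ℝ ℂ W] in
theorem Sect.fin [FiniteDimensional ℝ D] {O : Set D} {p : D → W →L[ℂ] W} {s : D → W}
    (h : Sect O p s) (hn : Nice O p s) : {x | x ∈ O ∧ s x = 0}.Finite :=
  fin_of_nice h.cpt fun z hz => ⟨hz.2, hn z hz.1 hz.2⟩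

omit [IsScalarTower ℝ ℂ W] in
theorem NiceAt.congr {p p' : D → W →L[ℂ] W} {s s' : D → W} {z : D} (h : NiceAt p s z)
    (hp : p' z = p z) (hs : s' =ᶠ[𝓝 z] s) : NiceAt p' s' z := by
  obtain ⟨B, a, b, c⟩ := h
  exact ⟨B, a.congr_of_eventuallyEq hs, b, hp ▸ c⟩

/-- Off a compact set means near every point outside it. -/
theorem off_nhds {T A : Type} [TopologicalSpace T] [T2Space T] {O K : Set T} {s t : T → A}
    (hO : IsOpen O) (hK : IsCompact K) (h : ∀ x ∈ O, x ∉ K → s x = t x) {z : T} (hz : z ∈ O)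
    (hz' : z ∉ K) : s =ᶠ[𝓝 z] t := by
  filter_upwards [hO.mem_nhds hz, hK.isClosed.isOpen_compl.mem_nhds hz'] with x a b using h x a b

theorem Off.symm {T A : Type} [TopologicalSpace T] {O G : Set T} {s t : T → A} (h : Off O G s t) :
    Off O G t s := by
  obtain ⟨K, a, b, c⟩ := h
  exact ⟨K, a, b, fun x hx hx' => (c x hx hx').symm⟩

theorem Off.trans {T A : Type} [TopologicalSpace T] {O G : Set T} {s t u : T → A}
    (h : Off O G s t) (h' : Off O G t u) : Off O G s u := by
  obtain ⟨K, a, b, c⟩ := h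
  obtain ⟨K', a', b', c'⟩ := h'
  exact ⟨K ∪ K', a.union a', union_subset b b', fun x hx hx' =>
    (c x hx fun h => hx' (Or.inl h)).trans (c' x hx fun h => hx' (Or.inr h))⟩

theorem Off.mono {T A : Type} [TopologicalSpace T] {O G O' G' : Set T} {s t : T → A}
    (h : Off O G s t) (hO : O' ⊆ O) (hG : G ⊆ G') : Off O' G' s t := by
  obtain ⟨K, a, b, c⟩ := h
  exact ⟨K, a, b.trans hG, fun x hx hx' => c x (hO hx) hx'⟩

theorem Off.refl {T A : Type} [TopologicalSpace T] (O G : Set T) (s : T → A) : Off O G s s :=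
  ⟨∅, isCompact_empty, empty_subset _, fun _ _ _ => rfl⟩

/-- The zeros inside a compact subset form a compact set. -/
theorem cpt_zero {T A : Type} [TopologicalSpace T] [T2Space T] [NormedAddCommGroup A]
    {K : Set T} {s : T → A} (hK : IsCompact K) (hs : ContinuousOn s K) :
    IsCompact {x | x ∈ K ∧ s x = 0} :=
  hK.of_isClosed_subset (hs.preimage_isClosed_of_isClosed hK.isClosed isClosed_singleton)
    fun _ hx => hx.1

/-- A continuous map that agrees off a compact set with a map with compact zero set. -/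
theorem cpt_off {T A : Type} [TopologicalSpace T] [T2Space T] [NormedAddCommGroup A]
    {O : Set T} {s t : T → A} (hs : IsCompact {x | x ∈ O ∧ s x = 0}) (ht : ContinuousOn t O)
    (h : Off O O t s) : IsCompact {x | x ∈ O ∧ t x = 0} := by
  obtain ⟨K, a, b, c⟩ := h
  have hK := a.union hs
  have hsub : K ∪ {x | x ∈ O ∧ s x = 0} ⊆ O := union_subset b fun _ hx => hx.1
  have e : {x | x ∈ O ∧ t x = 0} = {x | x ∈ K ∪ {x | x ∈ O ∧ s x = 0} ∧ t x = 0} := by
    refine Set.ext fun x => ⟨fun hx => ⟨?_, hx.2⟩, fun hx => ⟨hsub hx.1, hx.2⟩⟩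
    by_cases hk : x ∈ K
    · exact Or.inl hk
    · exact Or.inr ⟨hx.1, (c x hx.1 hk).symm.trans hx.2⟩
  rw [e]
  exact cpt_zero hK (ht.mono hsub)

theorem Chart.mono {T F : Type} [TopologicalSpace T] [NormedAddCommGroup F] [NormedSpace ℂ F]
    {W : Type} [NormedAddCommGroup W] [NormedSpace ℂ W] {p : T → W →L[ℂ] W} {G G' : Set T}
    (h : Chart F p G) (hG : IsOpen G') (hs : G' ⊆ G) : Chart F p G' := by
  obtain ⟨-, τ, σ, a, b, c, d⟩ := h
  exact ⟨hG, τ, σ, a.mono hs, b.mono hs, fun x hx => c x (hs hx), fun x hx => d x (hs hx)⟩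

end Pool.Agent.MP_826def_gt.BE
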