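import Pool.Agent.MP_826def_gt.BE.B

/-! The degree: independence of choices, excision, additivity and isomorphisms of bundles. -/

namespace Pool.Agent.MP_826def_gt.BE

open Set Module Filter Topology

variable {V W W' : Type} [NormedAddCommGroup V] [NormedSpace ℂ V] [FiniteDimensional ℂ V]
  [NormedSpace ℝ V] [IsScalarTower ℝ ℂ V] [NormedAddCommGroup W] [NormedSpace ℂ W]
  [FiniteDimensional ℂ W] [NormedSpace ℝ W] [IsScalarTower ℝ ℂ W] [NormedAddCommGroup W']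
  [NormedSpace ℂ W'] [FiniteDimensional ℂ W'] [NormedSpace ℝ W'] [IsScalarTower ℝ ℂ W']

theorem deg_rep (hB : S_B) {O : Set V} {p : V → W →L[ℂ] W} {s t : V → W}
    (hk : Rk O p (finrank ℂ V)) (ht : Rep O p s t) : deg O p s = dsum O t := by
  have h : ∃ t, Rep O p s t := ⟨t, ht⟩
  unfold deg
  rw [dif_pos h]
  exact hB V W O p _ t h.choose_spec.1 ht.1 hk h.choose_spec.2.2 ht.2.2
    (h.choose_spec.2.1.trans ht.2.1.symm)

theorem ex_rep (hN : S_N) {O : Set V} {p : V → W →L[ℂ] W} {s : V → W} (hs : Sect O p s)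
    (hk : Rk O p (finrank ℂ V)) : ∃ t, Rep O p s t := by
  have := fdR V
  exact hN V W O p s _ hs hk (rkR V).le

/-- Restriction to an open set on which the zero set is compact. -/
theorem Sect.restr {T W : Type} [TopologicalSpace T] [NormedAddCommGroup W] [NormedSpace ℂ W]
    {O O' : Set T} {p p' : T → W →L[ℂ] W} {s s' : T → W} (hs : Sect O p s) (hO : IsOpen O')
    (hsub : O' ⊆ O) (hp : EqOn p' p O') (he : EqOn s' s O')
    (hz : IsCompact {x | x ∈ O' ∧ s x = 0}) : Sect O' p' s' := by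
  refine ⟨hO, (hs.pc.mono hsub).congr hp, fun x hx w => ?_, (hs.sc.mono hsub).congr he,
    fun x hx => ?_, ?_⟩
  · rw [hp hx, hs.idem x (hsub hx)]
  · rw [hp hx, he hx, hs.mem x (hsub hx)]
  · have : {x | x ∈ O' ∧ s' x = 0} = {x | x ∈ O' ∧ s x = 0} :=
      Set.ext fun x => and_congr_right fun hx => by rw [he hx]
    rwa [this]

/-- A modification inside an open subset extends. -/
theorem Sect.ext {T W : Type} [TopologicalSpace T] [T2Space T] [NormedAddCommGroup W]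
    [NormedSpace ℂ W] {O O' : Set T} {p : T → W →L[ℂ] W} {s t : T → W} (hs : Sect O p s)
    (hO : IsOpen O') (hsub : O' ⊆ O) (tc : ContinuousOn t O') (tm : ∀ x ∈ O', p x (t x) = t x)
    (off : Off O' O' t s) : ∃ u K, Sect O p u ∧ IsCompact K ∧ K ⊆ O' ∧ (∀ x, x ∉ K → u x = s x) ∧
      EqOn u t O' := by
  classical
  obtain ⟨K, hK, hKO, he⟩ := off
  let u : T → W := fun x => if x ∈ K then t x else s x
  have u1 : ∀ x, x ∉ K → u x = s x := fun x hx => if_neg hx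
  have u2 : EqOn u t O' := fun x hx => by
    by_cases hk : x ∈ K
    · exact if_pos hk
    · rw [u1 x hk, he x hx hk]
  have uc : ContinuousOn u O := by
    intro x hx
    by_cases hk : x ∈ K
    · have hx' := hO.mem_nhds (hKO hk)
      exact ((tc.continuousAt hx').congr
        (mem_of_superset hx' fun y hy => (u2 hy).symm)).continuousWithinAt
    · refine (hs.sc x hx).congr_of_eventuallyEq ?_ (u1 x hk)
      exact mem_nhdsWithin_of_mem_nhds
        (mem_of_superset (hK.isClosed.isOpen_compl.mem_nhds hk) fun y hy => u1 y hy)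
  refine ⟨u, K, ⟨hs.op, hs.pc, hs.idem, uc, fun x hx => ?_,
    cpt_off hs.cpt uc ⟨K, hK, hKO.trans hsub, fun x _ hx => u1 x hx⟩⟩, hK, hKO, u1, u2⟩
  by_cases hk : x ∈ K
  · rw [u2 (hKO hk), tm x (hKO hk)]
  · rw [u1 x hk, hs.mem x hx]

omit [FiniteDimensional ℂ V] [FiniteDimensional ℂ W] in
theorem dsum_congr {O O' : Set V} {s t : V → W} (hO : IsOpen O') (hsub : O' ⊆ O)
    (hz : ∀ x ∈ O, s x = 0 → x ∈ O') (he : EqOn t s O') : dsum O' t = dsum O s := by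
  refine finsum_mem_congr (Set.ext fun x => ⟨fun hx => ⟨hsub hx.1, (he hx.1).symm.trans hx.2⟩,
    fun hx => ⟨hz x hx.1 hx.2, (he (hz x hx.1 hx.2)).trans hx.2⟩⟩) fun z hz' => ?_
  rw [(eventuallyEq_of_mem (hO.mem_nhds (hz z hz'.1 hz'.2)) he).fderiv_eq]

theorem zero_eq {T W : Type} [Zero W] {O O' : Set T} {s : T → W} (hsub : O' ⊆ O)
    (hz : ∀ x ∈ O, s x = 0 → x ∈ O') : {x | x ∈ O' ∧ s x = 0} = {x | x ∈ O ∧ s x = 0} :=
  Set.ext fun x => ⟨fun hx => ⟨hsub hx.1, hx.2⟩, fun hx => ⟨hz x hx.1 hx.2, hx.2⟩⟩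

theorem deg_germ (hN : S_N) (hB : S_B) {O O' : Set V} {p p' : V → W →L[ℂ] W} {s s' : V → W}
    (hs : Sect O p s) (hk : Rk O p (finrank ℂ V)) (hO : IsOpen O') (hsub : O' ⊆ O)
    (hz : ∀ x ∈ O, s x = 0 → x ∈ O') (hp : EqOn p' p O') (he : EqOn s' s O') :
    deg O' p' s' = deg O p s := by
  have hs' : Sect O' p' s' := hs.restr hO hsub hp he (by rw [zero_eq hsub hz]; exact hs.cpt)
  have hk' : Rk O' p' (finrank ℂ V) := fun x hx => by rw [hp hx]; exact hk x (hsub hx)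
  obtain ⟨t, ht⟩ := ex_rep hN hs' hk'
  obtain ⟨u, K, hu, hK, hKO, u1, u2⟩ := hs.ext hO hsub ht.1.sc
    (fun x hx => by rw [← hp hx, ht.1.mem x hx])
    (ht.2.1.trans ⟨∅, isCompact_empty, empty_subset _, fun x hx _ => he hx⟩)
  have uz : ∀ x ∈ O, u x = 0 → x ∈ O' := fun x hx h => by
    by_cases hk : x ∈ K
    · exact hKO hk
    · exact hz x hx (u1 x hk ▸ h)
  rw [deg_rep hB hk' ht, deg_rep hB hk (t := u)
    ⟨hu, ⟨K, hK, hKO.trans hsub, fun x _ hx => u1 x hx⟩, fun z hz h => ?_⟩]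
  · exact dsum_congr hO hsub uz u2.symm
  · have hz' := uz z hz h
    exact (ht.2.2 z hz' (u2 hz' ▸ h)).congr (hp hz').symm
      (eventuallyEq_of_mem (hO.mem_nhds hz') u2)

theorem cpt_part {T W : Type} [TopologicalSpace T] [Zero W] {O O₁ O₂ : Set T} {s : T → W}
    (hs : IsCompact {x | x ∈ O ∧ s x = 0}) (h₂ : IsOpen O₂) (hd : Disjoint O₁ O₂) (hs₁ : O₁ ⊆ O)
    (hz : ∀ x ∈ O, s x = 0 → x ∈ O₁ ∪ O₂) : IsCompact {x | x ∈ O₁ ∧ s x = 0} := by
  have : {x | x ∈ O₁ ∧ s x = 0} = {x | x ∈ O ∧ s x = 0} \ O₂ :=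
    Set.ext fun x => ⟨fun hx => ⟨⟨hs₁ hx.1, hx.2⟩, disjoint_left.1 hd hx.1⟩,
      fun hx => ⟨(hz x hx.1.1 hx.1.2).resolve_right hx.2, hx.1.2⟩⟩
  rw [this]
  exact hs.diff h₂

theorem deg_add (hN : S_N) (hB : S_B) {O O₁ O₂ : Set V} {p : V → W →L[ℂ] W} {s : V → W}
    (hs : Sect O p s) (hk : Rk O p (finrank ℂ V)) (h₁ : IsOpen O₁) (h₂ : IsOpen O₂)
    (hd : Disjoint O₁ O₂) (hs₁ : O₁ ⊆ O) (hs₂ : O₂ ⊆ O) (hz : ∀ x ∈ O, s x = 0 → x ∈ O₁ ∪ O₂) :
    deg O p s = deg O₁ p s + deg O₂ p s := by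
  have := fdR V
  have hU := union_subset hs₁ hs₂
  rw [← deg_germ hN hB hs hk (h₁.union h₂) hU hz (fun _ _ => rfl) fun _ _ => rfl]
  have hs' : Sect (O₁ ∪ O₂) p s := hs.restr (h₁.union h₂) hU (fun _ _ => rfl) (fun _ _ => rfl)
    (by rw [zero_eq hU hz]; exact hs.cpt)
  have hk' : Rk (O₁ ∪ O₂) p (finrank ℂ V) := fun x hx => hk x (hU hx)
  obtain ⟨t, ht, ⟨K, hK, hKO, he⟩, tn⟩ := ex_rep hN hs' hk'
  have key : ∀ A B : Set V, IsOpen A → IsOpen B → Disjoint A B → A ∪ B = O₁ ∪ O₂ →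
      deg A p s = dsum A t := fun A B hA hB' hAB e => by
    have hsub : A ⊆ O₁ ∪ O₂ := e ▸ subset_union_left
    refine deg_rep hB (fun x hx => hk' x (hsub hx)) ⟨ht.restr hA hsub (fun _ _ => rfl)
      (fun _ _ => rfl) (cpt_part ht.cpt hB' hAB hsub fun x hx _ => e ▸ hx),
      ⟨K \ B, hK.diff hB', fun x hx => ((e ▸ hKO : K ⊆ A ∪ B) hx.1).resolve_right hx.2,
        fun x hx hx' => he x (hsub hx) fun h => hx' ⟨h, disjoint_left.1 hAB hx⟩⟩,
      fun z hz => tn z (hsub hz)⟩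
  rw [key O₁ O₂ h₁ h₂ hd rfl, key O₂ O₁ h₂ h₁ hd.symm (union_comm _ _),
    deg_rep hB hk' ⟨ht, ⟨K, hK, hKO, he⟩, tn⟩]
  have e : {x | x ∈ O₁ ∪ O₂ ∧ t x = 0} = {x | x ∈ O₁ ∧ t x = 0} ∪ {x | x ∈ O₂ ∧ t x = 0} :=
    Set.ext fun x => or_and_right
  have hf := ht.fin tn
  unfold dsum
  rw [e] at hf ⊢
  exact finsum_mem_union (hd.mono (fun _ hx => hx.1) fun _ hx => hx.1)
    (hf.subset subset_union_left) (hf.subset subset_union_right)

/-- Transport of a section along an isomorphism of bundles. -/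
theorem Sect.iso {T W W' : Type} [TopologicalSpace T] [NormedAddCommGroup W] [NormedSpace ℂ W]
    [NormedAddCommGroup W'] [NormedSpace ℂ W'] {O : Set T} {p : T → W →L[ℂ] W} {s : T → W}
    (hs : Sect O p s) {p' : T → W' →L[ℂ] W'} {s' : T → W'} {u : T → W →L[ℂ] W'}
    {v : T → W' →L[ℂ] W} (hu : ContinuousOn u O) (hv : ContinuousOn v O)
    (vu : ∀ x ∈ O, ∀ w, v x (u x w) = p x w) (uv : ∀ x ∈ O, ∀ w, u x (v x w) = p' x w)
    (up : ∀ x ∈ O, ∀ w, u x (p x w) = u x w) (he : ∀ x ∈ O, s' x = u x (s x)) : Sect O p' s' := by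
  refine ⟨hs.op, (hu.clm_comp hv).congr fun x hx => ContinuousLinearMap.ext fun w =>
    (uv x hx w).symm, fun x hx w => ?_, (hu.clm_apply hs.sc).congr he, fun x hx => ?_, ?_⟩
  · rw [← uv x hx w, ← uv x hx, vu x hx, up x hx]
  · rw [he x hx, ← uv x hx, vu x hx, up x hx]
  · have : {x | x ∈ O ∧ s' x = 0} = {x | x ∈ O ∧ s x = 0} :=
      Set.ext fun x => and_congr_right fun hx => ⟨fun h => by
        rw [← hs.mem x hx, ← vu x hx, ← he x hx, h, map_zero], fun h => by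
        rw [he x hx, h, map_zero]⟩
    rw [this]
    exact hs.cpt

theorem rank_iso {W W' : Type} [NormedAddCommGroup W] [NormedSpace ℂ W] [NormedAddCommGroup W']
    [NormedSpace ℂ W'] {p : W →L[ℂ] W} {p' : W' →L[ℂ] W'} {u : W →L[ℂ] W'} {v : W' →L[ℂ] W}
    (pp : ∀ w, p (p w) = p w) (vu : ∀ w, v (u w) = p w) (uv : ∀ w, u (v w) = p' w)
    (up : ∀ w, u (p w) = u w) : finrank ℂ (LinearMap.range (p' : W' →ₗ[ℂ] W')) =
      finrank ℂ (LinearMap.range (p : W →ₗ[ℂ] W)) := by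
  have e : LinearMap.range (p' : W' →ₗ[ℂ] W') =
      (LinearMap.range (p : W →ₗ[ℂ] W)).map (u : W →ₗ[ℂ] W') := by
    refine Submodule.ext fun w => ⟨?_, ?_⟩
    · rintro ⟨a, rfl⟩
      exact ⟨p (v a), ⟨_, rfl⟩, (up _).trans (uv a)⟩
    · rintro ⟨_, ⟨a, rfl⟩, rfl⟩
      exact ⟨u a, (uv _).symm.trans (congrArg u (vu a))⟩
  rw [e, ← LinearMap.range_domRestrict]
  refine LinearMap.finrank_range_of_inj fun a b hab => Subtype.ext ?_
  obtain ⟨_, a, rfl⟩ := a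
  obtain ⟨_, b, rfl⟩ := b
  have : v (u (p a)) = v (u (p b)) := congrArg v hab
  rwa [vu, vu, pp, pp] at this

theorem deg_iso (hN : S_N) (hB : S_B) (hL : S_Ld) {O : Set V} {p : V → W →L[ℂ] W} {s : V → W}
    (hs : Sect O p s) (hk : Rk O p (finrank ℂ V)) {p' : V → W' →L[ℂ] W'} {s' : V → W'}
    {u : V → W →L[ℂ] W'} {v : V → W' →L[ℂ] W} (hu : ContinuousOn u O) (hv : ContinuousOn v O)
    (vu : ∀ x ∈ O, ∀ w, v x (u x w) = p x w) (uv : ∀ x ∈ O, ∀ w, u x (v x w) = p' x w)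
    (up : ∀ x ∈ O, ∀ w, u x (p x w) = u x w) (he : ∀ x ∈ O, s' x = u x (s x)) :
    deg O p' s' = deg O p s := by
  obtain ⟨t, ht, ⟨K, hK, hKO, hts⟩, tn⟩ := ex_rep hN hs hk
  have hk' : Rk O p' (finrank ℂ V) := fun x hx =>
    (rank_iso (hs.idem x hx) (vu x hx) (uv x hx) (up x hx)).trans (hk x hx)
  have ez : ∀ x ∈ O, u x (t x) = 0 ↔ t x = 0 := fun x hx => ⟨fun h => by
    rw [← ht.mem x hx, ← vu x hx, h, map_zero], fun h => by rw [h, map_zero]⟩
  have key : ∀ z ∈ O, t z = 0 → NiceAt p' (fun x => u x (t x)) z ∧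
      ld (fderiv ℝ (fun x => u x (t x)) z) = ld (fderiv ℝ t z) := fun z hz h0 => by
    obtain ⟨B, b1, b2, b3⟩ := tn z hz h0
    have hf := hasF_app (hu.continuousAt (hs.op.mem_nhds hz)) b1 h0
    have hB : ∀ a, v z (u z (B a)) = B a := fun a => by
      obtain ⟨w, hw⟩ : B a ∈ range (p z) := b3 ▸ mem_range_self a
      rw [vu z hz, ← hw, hs.idem z hz]
    have i1 : Function.Injective (((u z).restrictScalars ℝ).comp B) := fun a b hab => b2 (by
      have : v z (u z (B a)) = v z (u z (B b)) := congrArg (v z) hab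
      rwa [hB, hB] at this)
    have r1 : range (((u z).restrictScalars ℝ).comp B) = range (p' z) := by
      refine Set.ext fun w => ⟨?_, ?_⟩
      · rintro ⟨a, rfl⟩
        exact ⟨u z (B a), (uv z hz _).symm.trans (congrArg (u z) (hB a))⟩
      · rintro ⟨a, rfl⟩
        obtain ⟨b, hb⟩ : p z (v z a) ∈ range B := b3 ▸ mem_range_self _
        exact ⟨b, (congrArg (u z) hb).trans ((up z hz _).trans (uv z hz a))⟩
    refine ⟨⟨_, hf, i1, r1⟩, ?_⟩
    obtain ⟨j, hj⟩ := (hL V W B (p z) b2 b3).1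
    have e : ((j.comp (v z)).restrictScalars ℝ).comp (((u z).restrictScalars ℝ).comp B) =
        (j.restrictScalars ℝ).comp B := ContinuousLinearMap.ext fun a => congrArg j (hB a)
    rw [hf.fderiv, b1.fderiv, (hL V W B (p z) b2 b3).2 j hj,
      (hL V W' _ (p' z) i1 r1).2 (j.comp (v z)) (by rwa [e]), e]
  rw [deg_rep hB hk ⟨ht, ⟨K, hK, hKO, hts⟩, tn⟩, deg_rep hB hk' (t := fun x => u x (t x))
    ⟨ht.iso hu hv vu uv up fun _ _ => rfl,
      ⟨K, hK, hKO, fun x hx hx' => by rw [he x hx, ← hts x hx hx']⟩,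
      fun z hz h => (key z hz ((ez z hz).1 h)).1⟩]
  exact finsum_mem_congr (Set.ext fun x => and_congr_right (ez x))
    fun z hz => (key z hz.1 hz.2).2

theorem sD1Of : S_D1Of := by
  intro hN hB hL V W _ _ _ _ _ _ _ _ _ _ O p s hs hk
  refine ⟨fun t ht => deg_rep hB hk ht, fun t ht off => ?_,
    fun O' p' s' a b c d e => deg_germ hN hB hs hk a b c d e,
    fun O₁ O₂ a b c d e f => deg_add hN hB hs hk a b c d e f,
    fun W' _ _ _ _ _ p' s' u v a b c d e f => deg_iso hN hB hL hs hk a b c d e f⟩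
  obtain ⟨u, hu⟩ := ex_rep hN hs hk
  rw [deg_rep hB hk hu, deg_rep hB hk ⟨hu.1, hu.2.1.trans off, hu.2.2⟩]

end Pool.Agent.MP_826def_gt.BE
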