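import Pool.Agent.MP_826def_gt.BE.All
import Pool.Agent.MP_826def_gt.MU.Spec

/-! The degree of a cocycle over a point. -/

namespace Pool.Agent.MP_826def_gt.BE

open Set Module Filter Topology MU

noncomputable section

/-- A cocycle read through a proper map is a section. -/
theorem sect_pull {X T : Type} [TopologicalSpace X] [TopologicalSpace T] {c : Raw X} (hc : c.Good)
    {φ : T → X × c.V} (hφ : IsProperMap φ) :
    Sect (φ ⁻¹' c.O) (fun x => c.p (φ x)) fun x => c.s (φ x) :=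
  ⟨hc.op.preimage hφ.continuous, hc.cp.comp hφ.continuous.continuousOn fun _ hx => hx,
    fun x hx w => congrArg (fun q : c.W →L[ℂ] c.W => q w) (hc.idem _ hx),
    hc.cs.comp hφ.continuous.continuousOn fun _ hx => hx, fun _ hx => hc.sec _ hx,
    hφ.isCompact_preimage hc.cpt⟩

theorem proper_pt (V : Type) [TopologicalSpace V] : IsProperMap fun v : V => (((), v) : Unit × V) :=
  (Homeomorph.punitProd V).symm.isProperMap

theorem proper_pt2 (T V : Type) [TopologicalSpace T] [TopologicalSpace V] :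
    IsProperMap fun z : T × V => (((((), z.1), z.2)) : (Unit × T) × V) :=
  ((Homeomorph.punitProd T).symm.prodCongr (Homeomorph.refl V)).isProperMap

/-- The degree of the part of degree zero. -/
def dg (c : Raw Unit) : ℤ :=
  deg {v : c.V | ((), v) ∈ c.deg 0} (fun v => c.p ((), v)) fun v => c.s ((), v)

theorem sect_deg (g2 : S_good2) {X T : Type} [TopologicalSpace X] [TopologicalSpace T] {c : Raw X}
    (hc : c.Good) (d : ℤ) {φ : T → X × c.V} (hφ : IsProperMap φ) :
    Sect {x | φ x ∈ c.deg d} (fun x => c.p (φ x)) fun x => c.s (φ x) := by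
  have h := sect_pull (g2.deg d hc).2.2 hφ
  have e : φ ⁻¹' (c.part d).O = {x | φ x ∈ c.deg d} :=
    Set.ext fun x => ⟨fun hx => hx.2, fun hx => ⟨hx.1, hx⟩⟩
  rwa [e] at h

theorem rk_deg {X T : Type} {c : Raw X} (φ : T → X × c.V) :
    Rk {x | φ x ∈ c.deg 0} (fun x => c.p (φ x)) (finrank ℂ c.V) := fun x hx => by
  have := hx.2
  rw [zero_add] at this
  exact_mod_cast this

theorem rk_id (E : FD) : rk (ContinuousLinearMap.id ℂ E) = E.dim := by
  rw [rk, ContinuousLinearMap.coe_id, LinearMap.range_id, finrank_top]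

theorem dg_move (g2 : S_good2) (c c' : Raw Unit) (hc : c.Good) (hc' : c'.Good) (m : Move c c') :
    dg c = dg c' := by
  cases m with
  | germ c O p s hO hp hs hZ =>
    refine ((sD1 _ _ _ _ _ (sect_deg g2 hc 0 (proper_pt _)) (rk_deg _)).2.2.1 _ _ _
      (sect_deg g2 hc' 0 (proper_pt _)).op (fun v hv => ⟨hO hv.1, ?_⟩) (fun v hv h0 => ?_)
      (fun v hv => hp hv.1) fun v hv => hs hv.1).symm
    · rw [← hp hv.1]
      exact hv.2
    · have : ((), v) ∈ O := hZ ⟨hv.1, h0⟩
      exact ⟨this, (congrArg (fun q => ((rk q : ℕ) : ℤ)) (hp this)).trans hv.2⟩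
  | htpy C hC =>
    exact sD3 C.V C.W unitInterval _ _ _ (sect_deg g2 hC 0 (proper_pt2 _ _)) (rk_deg _) 0 1
  | stab c E =>
    have h := (sD2 _ _ _ _ _ (sect_deg g2 hc 0 (proper_pt _)) (rk_deg _) E).2
    have e : {v : (c.stab E).V | ((), v) ∈ (c.stab E).deg 0} =
        {z : c.V × E | ((), z.1) ∈ c.deg 0} := by
      refine Set.ext fun z => and_congr_right fun _ => ?_
      change ((rk (W := c.W.prod E) ((c.p ((), z.1)).prodMap (ContinuousLinearMap.id ℂ E)) : ℕ) : ℤ)
        = 0 + (finrank ℂ (c.V × E) : ℕ) ↔ _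
      rw [g2.rk_sum, rk_id, finrank_prod]
      push_cast
      constructor <;> intro h <;> linarith
    rw [dg, dg, e]
    exact h.symm
  | viso c V' L =>
    have h := (sD2 _ _ _ _ _ (sect_deg g2 hc 0 (proper_pt _)) (rk_deg _) V').1 L
    have e : {v : (c.viso V' L).V | ((), v) ∈ (c.viso V' L).deg 0} =
        L ⁻¹' {z : c.V | ((), z) ∈ c.deg 0} := by
      refine Set.ext fun z => and_congr_right fun _ => ?_
      change _ = 0 + ((finrank ℂ V' : ℕ) : ℤ) ↔ _
      rw [L.toLinearEquiv.finrank_eq]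
    rw [dg, dg, e]
    exact h.symm
  | wemb c W' j r hr =>
    have rj : ∀ w, r (j w) = w := fun w => congrArg (fun q : c.W →L[ℂ] c.W => q w) hr
    have hs := sect_deg g2 hc 0 (proper_pt _)
    have h := (sD1 _ _ _ _ _ hs (rk_deg _)).2.2.2.2 W' (fun v => j ∘L c.p ((), v) ∘L r)
      (fun v => j (c.s ((), v))) (fun v => j ∘L c.p ((), v)) (fun v => c.p ((), v) ∘L r)
      (continuousOn_const.clm_comp hs.pc) (hs.pc.clm_comp continuousOn_const)
      (fun v hv w => (congrArg _ (rj _)).trans (hs.idem v hv w))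
      (fun v hv w => congrArg j (hs.idem v hv _)) (fun v hv w => congrArg j (hs.idem v hv _))
      fun v hv => congrArg j (hs.mem v hv).symm
    have e : {v : (c.wemb W' j r).V | ((), v) ∈ (c.wemb W' j r).deg 0} =
        {z : c.V | ((), z) ∈ c.deg 0} := by
      refine Set.ext fun z => and_congr_right fun hz => ?_
      have pp : ∀ w, c.p ((), z) (c.p ((), z) w) = c.p ((), z) w :=
        fun w => congrArg (fun q : c.W →L[ℂ] c.W => q w) (hc.idem _ hz)
      have : rk (j ∘L c.p ((), z) ∘L r) = rk (c.p ((), z)) :=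
        rank_iso (u := j ∘L c.p ((), z)) (v := c.p ((), z) ∘L r) pp
          (fun w => (congrArg _ (rj _)).trans (pp w)) (fun w => congrArg j (pp _))
          fun w => congrArg j (pp _)
      change ((rk (j ∘L c.p ((), z) ∘L r) : ℕ) : ℤ) = _ ↔ _
      rw [this]
    rw [dg, dg, e]
    exact h.symm

theorem dg_split (g1 : S_good1) (g2 : S_good2) {c : Raw Unit} {G G' : Set (Unit × c.V)}
    (hc : c.Good) (hG : IsOpen G) (hG' : IsOpen G') (hd : Disjoint G G') (hZ : c.Z ⊆ G ∪ G') :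
    dg c = dg (c.res G) + dg (c.res G') :=
  (sD1 _ _ _ _ _ (sect_deg g2 hc 0 (proper_pt _)) (rk_deg _)).2.2.2.1 _ _
    (sect_deg g2 (g1.res' hc hG hG' hd hZ) 0 (proper_pt _)).op
    (sect_deg g2 (g1.res' hc hG' hG hd.symm (union_comm G G' ▸ hZ)) 0 (proper_pt _)).op
    (disjoint_left.2 fun _ a b => disjoint_left.1 hd a.1.2 b.1.2) (fun _ a => ⟨a.1.1, a.2⟩)
    (fun _ a => ⟨a.1.1, a.2⟩) fun _ a h0 => (hZ ⟨a.1, h0⟩).imp (fun b => ⟨⟨a.1, b⟩, a.2⟩)
      fun b => ⟨⟨a.1, b⟩, a.2⟩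

theorem dg_one (g1 : S_good1) (g2 : S_good2) : dg (Raw.one Unit) = 1 := by
  have hs := sect_deg g2 (g1.one Unit) 0 (proper_pt _)
  rw [dg, (sD1 _ _ _ _ _ hs (rk_deg _)).1 _ ⟨hs, Off.refl _ _ _, fun z _ _ =>
    ⟨0, hasFDerivAt_const _ _, fun _ _ _ => Subsingleton.elim _ _,
      Set.ext fun w => ⟨fun _ => ⟨0, Subsingleton.elim _ _⟩, fun _ => ⟨0, Subsingleton.elim _ _⟩⟩⟩⟩]
  have e : {x : (Raw.one Unit).V | x ∈ {v : (Raw.one Unit).V | ((), v) ∈ (Raw.one Unit).deg 0} ∧
      (Raw.one Unit).s ((), x) = 0} = {0} := by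
    refine Set.ext fun x => ⟨fun _ => Subsingleton.elim _ _, fun _ => ⟨⟨trivial, ?_⟩, rfl⟩⟩
    rw [rk, Module.finrank_zero_of_subsingleton, FD.dim, Module.finrank_zero_of_subsingleton]
    rfl
  rw [dsum, e, finsum_mem_singleton, ld, if_pos]
  refine ⟨0, ?_⟩
  rw [ContinuousLinearMap.det, LinearMap.det_eq_one_of_subsingleton]
  exact zero_lt_one

theorem sDG [C : Fact Core] : S_DG := by
  have inv : ∀ c : Raw Unit, c.Good → dg (rep (cls c)) = dg c := fun c hc =>
    rep_lift dg (dg_move C.out.good2) hc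
  let φ : UU →+ ℤ := AddMonoidHom.mk' (fun x => dg (rep x)) fun x y => by
    obtain ⟨c, G, G', hc, hG, hG', hd, hZ, rfl, rfl⟩ := C.out.sum.2.1 x y
    rw [← cls_split hc hG hG' hd hZ, inv _ hc, inv _ (C.out.good1.res' hc hG hG' hd hZ),
      inv _ (C.out.good1.res' hc hG' hG hd.symm (union_comm G G' ▸ hZ))]
    exact dg_split C.out.good1 C.out.good2 hc hG hG' hd hZ
  have h1 : φ 1 = 1 := (inv _ (C.out.good1.one Unit)).trans (dg_one C.out.good1 C.out.good2)
  intro n hn
  have := congrArg φ hn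
  rwa [← zsmul_one, map_zsmul, h1, map_zero, zsmul_one, Int.cast_id] at this

end

end Pool.Agent.MP_826def_gt.BE
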