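import Pool.Agent.MP_826def_gt.BE.GP1

/-! The groups of a point and of a line in nonnegative degrees. -/

namespace Pool.Agent.MP_826def_gt.BE

open Set Module Filter Topology MU

noncomputable section

theorem mk_germ {V : FD} {G G' : Set V} {f : V → V} (h : (mk V G f).Good) (h' : (mk V G' f).Good)
    (hs : G' ⊆ G) (hz : ∀ x ∈ G, f x = 0 → x ∈ G') : cls (mk V G f) = cls (mk V G' f) :=
  cls_move h h' (Move.germ (mk V G f) _ _ _ (fun _ a => hs a) (fun _ _ => rfl) (fun _ _ => rfl)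
    fun _ a => hz _ a.1 a.2)

/-- A map with one nondegenerate zero. -/
theorem lin [C : Fact Core] {V : FD} {G : Set V} {f : V → V} {z : V} {A : V →L[ℝ] V}
    (hg : (mk V G f).Good) (hG : IsOpen G) (hc : ContinuousOn f G) (hz : z ∈ G) (h0 : f z = 0)
    (hu : ∀ x ∈ G, f x = 0 → x = z) (hf : HasFDerivAt f A z) (hA : A.det ≠ 0) :
    ∃ n : ℤ, cls (mk V G f) = n := by
  have := fdR V
  have g1 := C.out.good1
  obtain ⟨K, K0, hK⟩ := (A : V →ₗ[ℝ] V).exists_antilipschitzWith
    (LinearMap.ker_eq_bot'.2 fun v hv => zero_of_det hA hv)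
  have K1 : (0 : ℝ) < K := K0
  have h1 := (hasFDerivAt_iff_isLittleO.1 hf).def (c := (2 * K : ℝ)⁻¹) (by positivity)
  obtain ⟨G', hG', op, hz'⟩ := mem_nhds_iff.1 (inter_mem (hG.mem_nhds hz) h1)
  have sub : G' ⊆ G := fun x hx => (hG' hx).1
  have cs : Continuous fun x : Unit × V => x.2 := continuous_snd
  have cA : ∀ a : V, Continuous fun x : Unit × V => A (x.2 - a) := fun a => by fun_prop
  have k1 := cls_line g1 (X := Unit) (V := V) (W := V) (O := {x | x.2 ∈ G'})
    (p := fun _ => ContinuousLinearMap.id ℂ V) (op.preimage cs) continuousOn_const (fun _ _ => rfl)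
    (s := fun x => f x.2) (t := fun x => A (x.2 - z))
    ((hc.mono sub).comp cs.continuousOn fun _ h => h) (cA z).continuousOn (fun _ _ => rfl)
    (fun _ _ => rfl) (isCompact_singleton (x := ((), z))) (singleton_subset_iff.2 hz')
    fun a ha x hx e => by
      have b1 : ‖f x.2 - f z - A (x.2 - z)‖ ≤ (2 * K : ℝ)⁻¹ * ‖x.2 - z‖ := (hG' hx).2
      have b2 : ‖x.2 - z‖ ≤ K * ‖A (x.2 - z)‖ := ZeroHomClass.bound_of_antilipschitz _ hK _
      have b3 : A (x.2 - z) = ((a : ℂ) - 1) • (f x.2 - f z - A (x.2 - z)) := by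
        rw [h0, sub_zero, ← sub_eq_zero, ← e]
        module
      have b4 : ‖(a : ℂ) - 1‖ ≤ 1 := by
        rw [← Complex.ofReal_one, ← Complex.ofReal_sub, Complex.norm_real, Real.norm_eq_abs, abs_le]
        constructor <;> linarith [ha.1, ha.2]
      have b5 : ‖A (x.2 - z)‖ ≤ (2 * K : ℝ)⁻¹ * ‖x.2 - z‖ := by
        refine le_trans ?_ b1
        conv_lhs => rw [b3, norm_smul]
        exact mul_le_of_le_one_left (norm_nonneg _) b4
      have b6 : (K : ℝ) * ((2 * K : ℝ)⁻¹ * ‖x.2 - z‖) = ‖x.2 - z‖ / 2 := by field_simp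
      have b7 := mul_le_mul_of_nonneg_left b5 K1.le
      have b8 : ‖x.2 - z‖ ≤ 0 := by linarith
      exact Prod.ext rfl (sub_eq_zero.1 (norm_le_zero_iff.1 b8))
  have k2 := cls_line g1 (X := Unit) (V := V) (W := V) (O := univ)
    (p := fun _ => ContinuousLinearMap.id ℂ V) isOpen_univ continuousOn_const (fun _ _ => rfl)
    (s := fun x => A (x.2 - z)) (t := fun x => A x.2) (cA z).continuousOn
    (A.continuous.comp cs).continuousOn (fun _ _ => rfl) (fun _ _ => rfl)
    (K := (fun a : ℝ => ((), z - a • z)) '' Icc 0 1) (isCompact_Icc.image (by fun_prop))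
    (subset_univ _) fun a ha x _ e => ⟨a, ha, Prod.ext rfl (by
      have : A (x.2 - (z - a • z)) = 0 := by
        rw [← e, Complex.coe_smul]
        simp only [map_sub, map_smul]
        module
      exact (sub_eq_zero.1 (zero_of_det hA this)).symm)⟩
  obtain ⟨n, hn⟩ := kappa hA
  refine ⟨n, ?_⟩
  rw [mk_germ hg k1.1 sub fun x hx e => hu x hx e ▸ hz', ← hn]
  refine k1.2.2.trans (Eq.trans ?_ k2.2.2)
  exact (mk_germ (G := univ) (f := fun x => A (x - z)) k2.1 k1.2.1 (subset_univ _) fun x _ e =>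
    sub_eq_zero.1 (zero_of_det hA e) ▸ hz').symm

/-- A cocycle with one nondegenerate zero. -/
theorem single [C : Fact Core] {c : Raw Unit} (hc : c.Good) {z : c.V} (hZ : c.Z = {((), z)})
    (hk : rk (c.p ((), z)) = c.V.dim)
    (hn : NiceAt (fun v => c.p ((), v)) (fun v => c.s ((), v)) z) : ∃ n : ℤ, cls c = n := by
  have hs := sect_pull hc (proper_pt _)
  have hz : ((), z) ∈ c.Z := hZ ▸ rfl
  obtain ⟨G, hzG, hGO, hG, τ, σ, hτ, hσ, hτσ, hστ⟩ :=
    sChart _ _ c.V _ _ hs.op hs.pc hs.idem z hz.1 hk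
  have cz := chart_zero sLd hG hτ (fun x hx => hs.idem x (hGO hx)) hστ hzG hz.2 hn
  have cf : ContinuousOn (fun x => τ x (c.s ((), x))) G := hτ.clm_apply (hs.sc.mono hGO)
  have hu : ∀ x ∈ G, τ x (c.s ((), x)) = 0 → x = z := fun x hx e => by
    have : ((), x) ∈ c.Z := ⟨hGO hx, by rw [← hs.mem x (hGO hx), ← hστ x hx, e, map_zero]⟩
    rw [hZ] at this
    exact congrArg Prod.snd this
  have f0 : τ z (c.s ((), z)) = 0 := by rw [hz.2, map_zero]
  have cs : Continuous fun x : Unit × c.V => x.2 := continuous_snd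
  have eZ : (mk c.V G fun x => τ x (c.s ((), x))).Z = {((), z)} :=
    Set.ext fun x => ⟨fun h => Prod.ext rfl (hu _ h.1 h.2), fun h => h ▸ ⟨hzG, f0⟩⟩
  have hg : (mk c.V G fun x => τ x (c.s ((), x))).Good :=
    ⟨hG.preimage cs, continuousOn_const, cf.comp cs.continuousOn fun _ h => h, fun _ _ => rfl,
      fun _ _ => rfl, eZ ▸ isCompact_singleton⟩
  rw [C.out.eqv c (mk c.V G fun x => τ x (c.s ((), x))) (ContinuousLinearEquiv.refl ℂ c.V)
    {x | x.2 ∈ G} (fun x => τ x.2) (fun x => σ x.2) hc hg (hG.preimage cs) (fun _ h => h.1)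
    (fun x hx => by
      rw [hZ] at hx
      have e : x.2 = z := congrArg Prod.snd hx
      exact mem_of_eq_of_mem (y := z) (s := G) e hzG)
    (hτ.comp cs.continuousOn fun _ h => h) (hσ.comp cs.continuousOn fun _ h => h)
    fun x hx => ⟨hx, hGO hx, ContinuousLinearMap.ext (hστ _ hx), ContinuousLinearMap.ext (hτσ _ hx),
      rfl⟩]
  exact lin hg hG cf hzG f0 hu cz.1.hasFDerivAt cz.2.1

theorem many [C : Fact Core] {V W : FD} (p : Unit × V → W →L[ℂ] W) (s : Unit × V → W)
    (Z : Set (Unit × V)) (hZ : Z.Finite) : ∀ O : Set (Unit × V), Raw.Good ⟨V, W, O, p, s⟩ →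
    Raw.Z ⟨V, W, O, p, s⟩ = Z → (∀ z ∈ Z, rk (p z) = V.dim ∧
      NiceAt (fun v => p ((), v)) (fun v => s ((), v)) z.2) → ∃ n : ℤ, cls ⟨V, W, O, p, s⟩ = n := by
  induction Z, hZ using Set.Finite.induction_on with
  | empty => exact fun O hc e _ => ⟨0, (cls_empty hc e).trans Int.cast_zero.symm⟩
  | @insert a Z ha hZ ih =>
    intro O hc e hn
    obtain ⟨G, G', hG, hG', haG, hZG, hd⟩ := SeparatedNhds.of_isCompact_isCompact
      (isCompact_singleton (x := a)) hZ.isCompact (disjoint_singleton_left.2 ha)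
    have hcov : Raw.Z ⟨V, W, O, p, s⟩ ⊆ G ∪ G' := by
      rw [e, insert_eq]
      exact union_subset_union haG hZG
    have hres : ∀ H : Set (Unit × V), Raw.Z ⟨V, W, O ∩ H, p, s⟩ = insert a Z ∩ H := fun H => by
      rw [← e]
      exact Set.ext fun x => and_right_comm
    obtain ⟨m, hm⟩ := single (C.out.good1.res' hc hG hG' hd hcov) (z := a.2)
      ((hres G).trans (Set.ext fun x => ⟨fun h => h.1.resolve_right fun hx =>
        disjoint_left.1 hd h.2 (hZG hx), fun h => ⟨Or.inl h, haG h⟩⟩))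
      (hn a (mem_insert _ _)).1 (hn a (mem_insert _ _)).2
    obtain ⟨n, hn'⟩ := ih (O ∩ G') (C.out.good1.res' hc hG' hG hd.symm (union_comm G G' ▸ hcov))
      ((hres G').trans (Set.ext fun x => ⟨fun h => h.1.resolve_left fun hx =>
        disjoint_left.1 hd (haG hx) h.2, fun h => ⟨Or.inr h, hZG h⟩⟩))
      fun z hz => hn z (mem_insert_of_mem _ hz)
    exact ⟨m + n, by rw [cls_split hc hG hG' hd hcov, hm, Int.cast_add, ← hn']⟩

theorem sGP [C : Fact Core] : S_GP := by
  refine ⟨high Unit (Homeomorph.refl _) ?_, high ℝ (Homeomorph.punitProd ℝ).symm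
    (finrank_self ℝ).le, fun x => ?_⟩
  · rw [Module.finrank_zero_of_subsingleton]
    exact zero_le_one
  induction x using h_ind with | _ c hc => ?_
  have := fdR c.V
  have hc' := (C.out.good2.deg 0 hc).2.2
  have hk : ∀ z ∈ (c.part 0).O, rk ((c.part 0).p z) = c.V.dim := fun z hz => by
    have := hz.2.2
    change rk (c.p z) = _
    omega
  obtain ⟨t, ht, e1, tn⟩ := gp C.out.good1 hc' (Homeomorph.punitProd c.V).symm hk (rkR c.V).le
  rw [part_cls 0 hc, e1]
  refine many _ _ _ ?_ _ ht rfl fun z hz => ⟨hk z hz.1, tn z.2 hz.1 hz.2⟩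
  exact (((sect_pull ht (proper_pt _)).fin tn).image fun v => (((), v) : Unit × c.V)).subset
    fun z hz => ⟨z.2, hz, rfl⟩

end

end Pool.Agent.MP_826def_gt.BE
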