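import Pool.Agent.MP_826def_gt.BE.DG

/-! Homotopies of sections, general position for cocycles and the classes of linear maps. -/

namespace Pool.Agent.MP_826def_gt.BE

open Set Module Filter Topology MU

noncomputable section

theorem proper_slice {X T : Type} [TopologicalSpace X] [TopologicalSpace T] [T1Space T] (t : T) :
    IsProperMap fun x : X => (x, t) := by
  refine IsClosedEmbedding.isProperMap ⟨isEmbedding_prodMkLeft t, ?_⟩
  have : range (fun x : X => (x, t)) = Prod.snd ⁻¹' {t} :=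
    Set.ext fun z => ⟨fun ⟨_, hx⟩ => hx ▸ rfl, fun hz => ⟨z.1, Prod.ext rfl (Eq.symm hz)⟩⟩
  rw [this]
  exact isClosed_singleton.preimage continuous_snd

/-- A homotopy of sections whose zeros stay in a compact set. -/
theorem cls_htpy (g1 : S_good1) {X : Type} [TopologicalSpace X] [T2Space X] {V W : FD}
    {O : Set (X × V)} {p : X × V → W →L[ℂ] W} (hO : IsOpen O) (hp : ContinuousOn p O)
    (hi : ∀ z ∈ O, p z ∘L p z = p z) (S : unitInterval → X × V → W)
    (hS : ContinuousOn (fun z : unitInterval × X × V => S z.1 z.2) {z | z.2 ∈ O})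
    (hm : ∀ t, ∀ z ∈ O, p z (S t z) = S t z) {K : Set (X × V)} (hK : IsCompact K) (hKO : K ⊆ O)
    (hz : ∀ t, ∀ z ∈ O, S t z = 0 → z ∈ K) :
    (∀ t, Raw.Good ⟨V, W, O, p, S t⟩) ∧ cls ⟨V, W, O, p, S 0⟩ = cls ⟨V, W, O, p, S 1⟩ := by
  let φ : (X × unitInterval) × V ≃ₜ unitInterval × X × V :=
    ((Homeomorph.prodComm _ _).prodCongr (Homeomorph.refl V)).trans (Homeomorph.prodAssoc _ _ _)
  have c2 : Continuous fun z : (X × unitInterval) × V => (z.1.1, z.2) := by fun_prop
  have hC : Raw.Good (⟨V, W, {z | (z.1.1, z.2) ∈ O}, fun z => p (z.1.1, z.2),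
      fun z => S z.1.2 (z.1.1, z.2)⟩ : Raw (X × unitInterval)) := by
    refine ⟨hO.preimage c2, hp.comp c2.continuousOn fun _ h => h,
      hS.comp φ.continuous.continuousOn fun _ h => h, fun z h => hi _ h, fun z h => hm _ _ h, ?_⟩
    have h1 := φ.isCompact_preimage.2
      (cpt_zero (isCompact_univ.prod hK) (hS.mono fun z h => hKO h.2))
    refine (congrArg IsCompact (Set.ext fun z => ⟨fun h => ?_, fun h => ?_⟩)).mp h1
    · exact And.intro (hKO h.1.2) h.2
    · exact And.intro (And.intro trivial (hz _ _ h.1 h.2)) h.2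
  have hg : ∀ t, Raw.Good ⟨V, W, O, p, S t⟩ := fun t => g1.pull hC (proper_slice t)
  exact ⟨hg, cls_move (hg 0) (hg 1) (Move.htpy _ hC)⟩

/-- The straight line homotopy. -/
theorem cls_line (g1 : S_good1) {X : Type} [TopologicalSpace X] [T2Space X] {V W : FD}
    {O : Set (X × V)} {p : X × V → W →L[ℂ] W} (hO : IsOpen O) (hp : ContinuousOn p O)
    (hi : ∀ z ∈ O, p z ∘L p z = p z) {s t : X × V → W} (hs : ContinuousOn s O)
    (ht : ContinuousOn t O) (ms : ∀ z ∈ O, p z (s z) = s z) (mt : ∀ z ∈ O, p z (t z) = t z)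
    {K : Set (X × V)} (hK : IsCompact K) (hKO : K ⊆ O)
    (hz : ∀ a ∈ Icc (0 : ℝ) 1, ∀ z ∈ O, s z + (a : ℂ) • (t z - s z) = 0 → z ∈ K) :
    Raw.Good ⟨V, W, O, p, s⟩ ∧ Raw.Good ⟨V, W, O, p, t⟩ ∧
      cls ⟨V, W, O, p, s⟩ = cls ⟨V, W, O, p, t⟩ := by
  have a1 : ContinuousOn (fun z : unitInterval × X × V => s z.2) {z | z.2 ∈ O} :=
    hs.comp continuous_snd.continuousOn fun _ h => h
  have a2 : ContinuousOn (fun z : unitInterval × X × V => t z.2) {z | z.2 ∈ O} :=
    ht.comp continuous_snd.continuousOn fun _ h => h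
  have a3 : Continuous fun z : unitInterval × X × V => ((z.1 : ℝ) : ℂ) := by fun_prop
  have key := cls_htpy g1 hO hp hi (fun a z => s z + ((a : ℝ) : ℂ) • (t z - s z))
    (a1.add (a3.continuousOn.smul (a2.sub a1)))
    (fun a z h => by rw [map_add, map_smul, map_sub, ms z h, mt z h]) hK hKO
    fun a z h => hz a a.2 z h
  have e0 : (fun z => s z + (((0 : unitInterval) : ℝ) : ℂ) • (t z - s z)) = s := by
    funext z
    simp
  have e1 : (fun z => s z + (((1 : unitInterval) : ℝ) : ℂ) • (t z - s z)) = t := by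
    funext z
    simp
  have k0 := key.1 0
  have k1 := key.1 1
  have k2 := key.2
  rw [e0] at k0 k2
  rw [e1] at k1 k2
  exact ⟨k0, k1, k2⟩

/-- General position for cocycles. -/
theorem gp (g1 : S_good1) {X D : Type} [TopologicalSpace X] [T2Space X] [NormedAddCommGroup D]
    [NormedSpace ℝ D] [FiniteDimensional ℝ D] {c : Raw X} (hc : c.Good) (φ : D ≃ₜ X × c.V) {k : ℕ}
    (hk : ∀ z ∈ c.O, rk (c.p z) = k) (hd : finrank ℝ D ≤ 2 * k) :
    ∃ t : X × c.V → c.W, Raw.Good ⟨c.V, c.W, c.O, c.p, t⟩ ∧ cls c = cls ⟨c.V, c.W, c.O, c.p, t⟩ ∧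
      Nice (φ ⁻¹' c.O) (fun x => c.p (φ x)) fun x => t (φ x) := by
  obtain ⟨t, ht, ⟨K, hK, hKO, he⟩, tn⟩ := sN D c.W _ _ _ k (sect_pull hc φ.isProperMap)
    (fun x hx => hk _ hx) hd
  have mem : ∀ z ∈ c.O, φ.symm z ∈ φ ⁻¹' c.O := fun z hz => by
    rwa [mem_preimage, φ.apply_symm_apply]
  have key := cls_line g1 hc.op hc.cp hc.idem hc.cs (t := fun z => t (φ.symm z))
    (ht.sc.comp φ.symm.continuous.continuousOn mem) hc.sec
    (fun z hz => by simpa only [φ.apply_symm_apply] using ht.mem _ (mem z hz))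
    ((hK.image φ.continuous).union hc.cpt)
    (union_subset (image_subset_iff.2 hKO) fun _ h => h.1) fun a _ z hz h0 => by
      by_cases hzK : φ.symm z ∈ K
      · exact Or.inl ⟨_, hzK, φ.apply_symm_apply z⟩
      · have := he _ (mem z hz) hzK
        simp only [φ.apply_symm_apply] at this
        rw [this, sub_self, smul_zero, add_zero] at h0
        exact Or.inr ⟨hz, h0⟩
  refine ⟨fun z => t (φ.symm z), key.2.1, key.2.2, ?_⟩
  simpa only [φ.symm_apply_apply] using tn

theorem nice_dim {D : Type} {W : FD} [NormedAddCommGroup D] [NormedSpace ℝ D]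
    [FiniteDimensional ℝ D] {p : D → W →L[ℂ] W} {s : D → W} {z : D} (h : NiceAt p s z) :
    2 * rk (p z) ≤ finrank ℝ D := by
  obtain ⟨B, -, -, hB⟩ := h
  have hm : ∀ a, B a ∈ LinearMap.range (p z : W →ₗ[ℂ] W) := fun a =>
    (hB ▸ mem_range_self a : B a ∈ range (p z))
  let f : D →ₗ[ℝ] LinearMap.range (p z : W →ₗ[ℂ] W) :=
    ⟨⟨fun a => ⟨B a, hm a⟩, fun a b => Subtype.ext (map_add B a b)⟩,
      fun r a => Subtype.ext (map_smul B r a)⟩
  rw [rk, ← rkR]
  refine LinearMap.finrank_le_finrank_of_surjective (f := f) fun w => ?_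
  obtain ⟨a, ha⟩ : w.1 ∈ range B := hB ▸ w.2
  exact ⟨a, Subtype.ext ha⟩

/-- Classes of high degree vanish. -/
theorem high [C : Fact Core] {X : Type} [TopologicalSpace X] [T2Space X] (A : Type)
    [NormedAddCommGroup A] [NormedSpace ℝ A] [FiniteDimensional ℝ A] (e : A ≃ₜ X)
    (hA : finrank ℝ A ≤ 1) (d : ℤ) (hd : 0 < d) (x : h X) : part d x = 0 := by
  induction x using h_ind with | _ c hc => ?_
  have := fdR c.V
  have hc' := (C.out.good2.deg d hc).2.2
  have hk : ∀ z ∈ (c.part d).O, rk ((c.part d).p z) = d.toNat + c.V.dim := fun z hz => by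
    have := hz.2.2
    change rk (c.p z) = _
    omega
  have hD : finrank ℝ (A × c.V) < 2 * (d.toNat + c.V.dim) := by
    rw [finrank_prod, rkR c.V, FD.dim]
    omega
  obtain ⟨t, ht, e1, tn⟩ := gp C.out.good1 hc' (e.prodCongr (Homeomorph.refl c.V)) hk hD.le
  rw [part_cls d hc, e1]
  refine cls_empty ht (eq_empty_of_forall_notMem fun z hz => ?_)
  obtain ⟨y, rfl⟩ := (e.prodCongr (Homeomorph.refl c.V)).surjective z
  have h1 := nice_dim (tn y hz.1 hz.2)
  rw [hk _ hz.1] at h1
  omega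

/-- The cocycle of a map of a complex vector space to itself. -/
abbrev mk (V : FD) (G : Set V) (f : V → V) : Raw Unit :=
  ⟨V, V, {z | z.2 ∈ G}, fun _ => ContinuousLinearMap.id ℂ V, fun z => f z.2⟩

theorem zero_of_det {V : Type} [NormedAddCommGroup V] [NormedSpace ℝ V] [FiniteDimensional ℝ V]
    {A : V →L[ℝ] V} (h : A.det ≠ 0) {v : V} (hv : A v = 0) : v = 0 := by
  by_contra hne
  exact h (LinearMap.det_eq_zero_iff_ker_ne_bot.2
    ((Submodule.ne_bot_iff _).2 ⟨v, hv, hne⟩))

theorem kappa_path (g1 : S_good1) {V : FD} {A B : V →L[ℝ] V} (hAB : 0 < A.det * B.det) :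
    (mk V univ A).Good ∧ cls (mk V univ A) = cls (mk V univ B) := by
  have := fdR V
  have hj := sGL V A B hAB
  have key := cls_htpy g1 (X := Unit) (V := V) (W := V) (O := univ)
    (p := fun _ => ContinuousLinearMap.id ℂ V) isOpen_univ continuousOn_const (fun _ _ => rfl)
    (fun t z => hj.somePath t z.2)
    ((hj.somePath.continuous.comp continuous_fst).clm_apply
      (continuous_snd.comp continuous_snd)).continuousOn (fun _ _ _ => rfl)
    (isCompact_singleton (x := ((), 0))) (subset_univ _)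
    fun t z _ h0 => Prod.ext rfl (zero_of_det (hj.somePath_mem t) h0)
  have k0 := key.1 0
  have k2 := key.2
  simp only [Path.source, Path.target] at k0 k2
  exact ⟨k0, k2⟩

theorem kappa [C : Fact Core] {V : FD} {A : V →L[ℝ] V} (hA : A.det ≠ 0) :
    ∃ n : ℤ, cls (mk V univ A) = n := by
  have := fdR V
  have g1 := C.out.good1
  rcases hA.lt_or_gt with hA | hA
  · have hV : V.dim ≠ 0 := fun h0 => by
      have : Subsingleton V := Module.finrank_zero_iff.1 h0
      rw [ContinuousLinearMap.det, LinearMap.det_eq_one_of_subsingleton] at hA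
      exact absurd hA (by norm_num)
    let E : FD := FD.std (V.dim - 1)
    let e : V ≃L[ℂ] ℂ × E := ContinuousLinearEquiv.ofFinrankEq (by
      change V.dim = finrank ℂ (ℂ × (Fin (V.dim - 1) → ℂ))
      rw [finrank_prod, finrank_self, finrank_fin_fun]
      omega)
    let R : V →L[ℝ] V := ((e.symm : ℂ × E →L[ℂ] V).restrictScalars ℝ).comp
      (((Complex.conjCLE : ℂ →L[ℝ] ℂ).prodMap (ContinuousLinearMap.id ℝ E)).comp
        ((e : V →L[ℂ] ℂ × E).restrictScalars ℝ))
    have hR : R.det = -1 := by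
      have := fdR E
      have h1 := LinearMap.det_conj ((Complex.conjLIE.toLinearEquiv : ℂ →ₗ[ℝ] ℂ).prodMap
        (LinearMap.id : E →ₗ[ℝ] E)) (e.symm.toLinearEquiv.restrictScalars ℝ)
      rw [LinearMap.det_prodMap, Complex.det_conjLIE, LinearMap.det_id, mul_one] at h1
      exact h1
    have h1 := kappa_path g1 (A := A) (B := R) (by rw [hR]; linarith)
    have h2 := (kappa_path g1 (A := R) (B := R) (by rw [hR]; norm_num)).1
    have h3 : cls (Raw.eps.stab E) = cls (mk V univ R) :=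
      C.out.eqv _ _ e univ (fun _ => (e.symm : ℂ × E →L[ℂ] V)) (fun _ => (e : V →L[ℂ] ℂ × E))
        (g1.stab E g1.eps) h2 isOpen_univ (subset_univ _) (fun _ _ => trivial) continuousOn_const
        continuousOn_const fun z _ => ⟨trivial, trivial,
          ContinuousLinearMap.ext fun w => e.apply_symm_apply w,
          ContinuousLinearMap.ext fun w => e.symm_apply_apply w, rfl⟩
    refine ⟨-1, ?_⟩
    rw [h1.2, ← h3, ← cls_move g1.eps (g1.stab E g1.eps) (Move.stab _ E), Int.cast_neg,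
      Int.cast_one]
    exact eq_neg_of_add_eq_zero_left C.out.eps
  · have hR : (ContinuousLinearMap.id ℝ V).det = 1 := LinearMap.det_id
    have h1 := kappa_path g1 (A := A) (B := ContinuousLinearMap.id ℝ V) (by rw [hR]; linarith)
    have h2 := (kappa_path g1 (A := ContinuousLinearMap.id ℝ V) (B := ContinuousLinearMap.id ℝ V)
      (by rw [hR]; norm_num)).1
    let e : V ≃L[ℂ] Unit × V := (ContinuousLinearEquiv.uniqueProd ℂ V Unit).symm
    have h3 : cls ((Raw.one Unit).stab V) = cls (mk V univ (ContinuousLinearMap.id ℝ V)) :=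
      C.out.eqv _ _ e univ (fun _ => (e.symm : Unit × V →L[ℂ] V)) (fun _ => (e : V →L[ℂ] Unit × V))
        (g1.stab V (g1.one Unit)) h2 isOpen_univ (subset_univ _) (fun _ _ => trivial)
        continuousOn_const continuousOn_const fun z _ => ⟨trivial, trivial,
          ContinuousLinearMap.ext fun w => rfl, ContinuousLinearMap.ext fun w => rfl, rfl⟩
    refine ⟨1, ?_⟩
    rw [h1.2, ← h3, ← cls_move (g1.one Unit) (g1.stab V (g1.one Unit)) (Move.stab _ V),
      Int.cast_one]
    rfl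

end

end Pool.Agent.MP_826def_gt.BE
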