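import Pool.Agent.MP_826def_gt.BE.All
import Pool.Agent.MP_826def_gt.MU.Spec

/-! Vanishing in positive degrees by general position. -/

namespace Pool.Agent.MP_826def_gt.BE

open Set Module Filter Topology MU

noncomputable section

namespace GP

theorem sect {X : Type} [TopologicalSpace X] {c : Raw X} (hc : c.Good) : Sect c.O c.p c.s :=
  ⟨hc.op, hc.cp, fun _ hx w => congrArg (fun q : c.W →L[ℂ] c.W => q w) (hc.idem _ hx), hc.cs,
    hc.sec, hc.cpt⟩

theorem good {X : Type} [TopologicalSpace X] {V W : FD} {O : Set (X × V)}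
    {p : X × V → W →L[ℂ] W} {s : X × V → W} (h : Sect O p s) : (⟨V, W, O, p, s⟩ : Raw X).Good :=
  ⟨h.op, h.pc, h.sc, fun x hx => ContinuousLinearMap.ext (h.idem x hx), h.mem, h.cpt⟩

/-- The class only depends on the section outside a compact set. -/
theorem cls_off {X : Type} [TopologicalSpace X] [T2Space X] {V W : FD} {O : Set (X × V)}
    {p : X × V → W →L[ℂ] W} {s t : X × V → W} (hs : Sect O p s) (ht : Sect O p t)
    (h : Off O O t s) : cls (⟨V, W, O, p, s⟩ : Raw X) = cls ⟨V, W, O, p, t⟩ := by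
  let φ : (X × unitInterval) × V → X × V := fun z => (z.1.1, z.2)
  have hφ : IsProperMap φ :=
    (isProperMap_fst_of_compactSpace (X := X) (Y := unitInterval)).prodMap isProperMap_id
  have hm : MapsTo φ (φ ⁻¹' O) O := fun _ hz => hz
  let u : (X × unitInterval) × V → W := fun z =>
    s (φ z) + ((z.1.2 : ℝ) : ℂ) • (t (φ z) - s (φ z))
  have c1 := hs.sc.comp hφ.continuous.continuousOn hm
  have c2 := ht.sc.comp hφ.continuous.continuousOn hm
  have cu : ContinuousOn u (φ ⁻¹' O) :=
    c1.add ((by fun_prop : Continuous fun z : (X × unitInterval) × V =>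
      ((z.1.2 : ℝ) : ℂ)).continuousOn.smul (c2.sub c1))
  have hu : Sect (φ ⁻¹' O) (fun z => p (φ z)) u := by
    refine ⟨hs.op.preimage hφ.continuous, hs.pc.comp hφ.continuous.continuousOn hm,
      fun z hz => hs.idem _ hz, cu, fun z hz => ?_, ?_⟩
    · simp only [u, map_add, map_smul, map_sub, hs.mem _ hz, ht.mem _ hz]
    · obtain ⟨K, a, b, e⟩ := h
      refine cpt_off (s := fun z => s (φ z)) (hφ.isCompact_preimage hs.cpt) cu
        ⟨φ ⁻¹' K, hφ.isCompact_preimage a, preimage_mono b, fun z hz hk => ?_⟩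
      simp only [u, e _ hz hk, sub_self, smul_zero, add_zero]
  have m := Move.htpy _ (good hu)
  have e0 : (Raw.pull ⟨V, W, φ ⁻¹' O, fun z => p (φ z), u⟩ fun x : X => (x, 0)) =
      ⟨V, W, O, p, s⟩ := by
    simp [Raw.pull, u, φ]
  have e1 : (Raw.pull ⟨V, W, φ ⁻¹' O, fun z => p (φ z), u⟩ fun x : X => (x, 1)) =
      ⟨V, W, O, p, t⟩ := by
    simp [Raw.pull, u, φ]
  rw [e0, e1] at m
  exact cls_move (good hs) (good ht) m

/-- At a nondegenerate zero the dimension is twice the rank. -/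
theorem nice_dim {D : Type} [NormedAddCommGroup D] [NormedSpace ℝ D] {W : FD}
    {p : D → W →L[ℂ] W} {s : D → W} {z : D} (h : NiceAt p s z) :
    finrank ℝ D = 2 * rk (p z) := by
  obtain ⟨B, -, hB, e⟩ := h
  have e' : LinearMap.range (B : D →ₗ[ℝ] W) =
      (LinearMap.range (p z : W →ₗ[ℂ] W)).restrictScalars ℝ := SetLike.coe_injective e
  rw [← LinearMap.finrank_range_of_inj (f := (B : D →ₗ[ℝ] W)) hB, e', rk,
    ← finrank_real_of_complex]
  rfl

theorem vanish [C : Fact Core] (X : Type) [NormedAddCommGroup X] [NormedSpace ℝ X]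
    [FiniteDimensional ℝ X] (hX : finrank ℝ X ≤ 1) (d : ℤ) (hd : 0 < d) (x : h X) :
    part d x = 0 := by
  induction x using h_ind with
  | H c hc =>
    have hs := sect (C.out.good2.deg d hc).2.2
    obtain ⟨n, rfl⟩ := Int.eq_ofNat_of_zero_le hd.le
    have hk : ∀ z ∈ (c.part n).O, rk (c.p z) = n + c.V.dim := fun z hz => by
      exact_mod_cast hz.2.2
    have hD : finrank ℝ (X × c.V) < 2 * (n + c.V.dim) := by
      rw [finrank_prod, finrank_real_of_complex c.V, FD.dim]
      omega
    obtain ⟨t, ht, ho, hn⟩ := sN _ _ _ _ _ _ hs hk hD.le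
    rw [part_cls _ hc]
    refine (cls_off hs ht ho).trans (cls_empty (good ht) (eq_empty_of_forall_notMem fun z hz => ?_))
    exact hD.ne ((nice_dim (hn z hz.1 hz.2)).trans (congrArg _ (hk z hz.1)))

end GP

theorem gp1 [Fact Core] : ∀ d > 0, ∀ x : UU, part d x = 0 :=
  GP.vanish Unit (by rw [finrank_zero_of_subsingleton]; omega)

theorem gp2 [Fact Core] : ∀ d > 0, ∀ x : h (Unit × ℝ), part d x = 0 :=
  GP.vanish (Unit × ℝ) (by rw [finrank_prod, finrank_zero_of_subsingleton, finrank_self])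

end

end Pool.Agent.MP_826def_gt.BE
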