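import Pool.Agent.MP_826def_gt.BE.Basic

/-! General position for sections. -/

namespace Pool.Agent.MP_826def_gt.BE

open Set Module Filter Topology

variable {D W F : Type} [NormedAddCommGroup D] [NormedSpace ℝ D] [FiniteDimensional ℝ D]
  [NormedAddCommGroup W] [NormedSpace ℂ W] [NormedSpace ℝ W] [IsScalarTower ℝ ℂ W]
  [NormedAddCommGroup F] [NormedSpace ℂ F] [NormedSpace ℝ F] [IsScalarTower ℝ ℂ F]
  [FiniteDimensional ℝ F]

/-- General position in one chart, relative to the zeros that are already nondegenerate. -/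
theorem rel (h1 : S_N1) {O G R A : Set D} {p : D → W →L[ℂ] W} {s : D → W} (hs : Sect O p s)
    (hd : finrank ℝ D ≤ finrank ℝ F) (hG : Chart F p G) (hGO : G ⊆ O) (hR : IsClosed R)
    (hA : IsCompact A) (hAG : A ⊆ G) (hn : ∀ z ∈ O, z ∈ R → z ∉ A → s z = 0 → NiceAt p s z) :
    ∃ t, Sect O p t ∧ Off O G t s ∧ ∀ z ∈ O, z ∈ R → t z = 0 → NiceAt p t z := by
  classical
  obtain ⟨hGo, τ, σ, hτ, hσ, hτσ, hστ⟩ := hG
  obtain ⟨C, hC, hAC, hCG⟩ := exists_compact_between hA hGo hAG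
  have hΩG : interior C ⊆ G := interior_subset.trans hCG
  have hz : IsCompact {x | x ∈ interior C ∧ x ∈ R ∧ τ x (s x) = 0} := by
    have a1 : IsCompact ({x | x ∈ O ∧ s x = 0} ∩ R) := hs.cpt.inter_right hR
    have a2 : IsCompact (({x | x ∈ O ∧ s x = 0} ∩ R) \ interior C) := a1.diff isOpen_interior
    have a3 : IsOpen (⋃ z ∈ ({x | x ∈ O ∧ s x = 0} ∩ R) \ interior C,
        interior {x | s x = 0 → x = z}) := isOpen_biUnion fun _ _ => isOpen_interior
    have e : {x | x ∈ interior C ∧ x ∈ R ∧ τ x (s x) = 0} = ({x | x ∈ O ∧ s x = 0} ∩ R) \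
        ⋃ z ∈ ({x | x ∈ O ∧ s x = 0} ∩ R) \ interior C, interior {x | s x = 0 → x = z} := by
      refine Set.ext fun x => ⟨fun hx => ?_, fun hx => ?_⟩
      · have hxG := hΩG hx.1
        have h0 : s x = 0 := by
          rw [← hs.mem x (hGO hxG), ← hστ x hxG, hx.2.2, map_zero]
        refine ⟨⟨⟨hGO hxG, h0⟩, hx.2.1⟩, fun h => ?_⟩
        obtain ⟨z, hz, hxz⟩ := mem_iUnion₂.1 h
        have : x = z := interior_subset hxz h0
        exact hz.2 (this ▸ hx.1)
      · have hi : x ∈ interior C := by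
          by_contra hi
          obtain ⟨B, b1, b2, -⟩ := hn x hx.1.1.1 hx.1.2 (fun h => hi (hAC h)) hx.1.1.2
          exact hx.2 (mem_iUnion₂.2 ⟨x, ⟨hx.1, hi⟩,
            mem_interior_iff_mem_nhds.2 (isolated b1 b2 hx.1.1.2)⟩)
        exact ⟨hi, hx.1.2, by rw [hx.1.1.2, map_zero]⟩
    rw [e]
    exact a1.diff a3
  obtain ⟨g, hg, ⟨K, hK, hKΩ, hgK⟩, hgn⟩ := h1 D F (fun x => τ x (s x)) (interior C) R hd
    isOpen_interior hR ((hτ.mono hΩG).clm_apply (hs.sc.mono (hΩG.trans hGO))) hz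
  let t : D → W := fun x => if x ∈ K then σ x (g x) else s x
  have t1 : ∀ x, x ∉ K → t x = s x := fun x hx => if_neg hx
  have t2 : ∀ x ∈ interior C, t x = σ x (g x) := fun x hx => by
    by_cases hk : x ∈ K
    · exact if_pos hk
    · rw [t1 x hk, hgK x trivial hk, hστ x (hΩG hx), hs.mem x (hGO (hΩG hx))]
  have tc : ContinuousOn t O := by
    intro x hx
    by_cases hk : x ∈ K
    · have hx' := isOpen_interior.mem_nhds (hKΩ hk)
      have : ContinuousAt (fun x => σ x (g x)) x :=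
        ((hσ.mono hΩG).clm_apply hg).continuousAt hx'
      exact (this.congr (mem_of_superset hx' fun y hy => (t2 y hy).symm)).continuousWithinAt
    · refine (hs.sc x hx).congr_of_eventuallyEq ?_ (t1 x hk)
      exact mem_nhdsWithin_of_mem_nhds
        (mem_of_superset (hK.isClosed.isOpen_compl.mem_nhds hk) fun y hy => t1 y hy)
  have off : Off O G t s := ⟨K, hK, hKΩ.trans hΩG, fun x _ hx => t1 x hx⟩
  have pσ : ∀ x ∈ G, ∀ y, p x (σ x y) = σ x y := fun x hx y => by rw [← hστ x hx, hτσ x hx]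
  refine ⟨t, ⟨hs.op, hs.pc, hs.idem, tc, fun x hx => ?_, cpt_off hs.cpt tc (off.mono le_rfl hGO)⟩,
    off, fun z hz hzR h0 => ?_⟩
  · by_cases hk : x ∈ K
    · rw [t2 x (hKΩ hk), pσ x (hΩG (hKΩ hk))]
    · rw [t1 x hk, hs.mem x hx]
  by_cases hi : z ∈ interior C
  · have hzG := hΩG hi
    have g0 : g z = 0 := by rw [← hτσ z hzG (g z), ← t2 z hi, h0, map_zero]
    obtain ⟨B, b1, b2⟩ := hgn z hi hzR g0
    refine ⟨_, (hasF_app (hσ.continuousAt (hGo.mem_nhds hzG)) b1 g0).congr_of_eventuallyEq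
      (mem_of_superset (isOpen_interior.mem_nhds hi) t2), fun a b hab => b2.1 ?_, ?_⟩
    · have := congrArg (τ z) hab
      simpa only [ContinuousLinearMap.comp_apply, ContinuousLinearMap.coe_restrictScalars',
        hτσ z hzG] using this
    · refine Set.ext fun w => ⟨?_, ?_⟩
      · rintro ⟨a, rfl⟩
        exact ⟨_, pσ z hzG (B a)⟩
      · rintro ⟨a, rfl⟩
        obtain ⟨b, hb⟩ := b2.2 (τ z a)
        exact ⟨b, by rw [← hστ z hzG, ← hb]; rfl⟩
  · have hk : z ∉ K := fun h => hi (hKΩ h)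
    exact (hn z hz hzR (fun h => hi (hAC h)) (t1 z hk ▸ h0)).congr rfl
      (off_nhds hs.op hK (fun x _ hx => t1 x hx) hz hk)

/-- A compact set is covered by finitely many charts. -/
theorem cover {T : Type} [TopologicalSpace T] {O A : Set T} (P : Set T → Prop)
    (hP : ∀ x ∈ O, ∃ G, x ∈ G ∧ IsOpen G ∧ P G) (hA : IsCompact A) (hAO : A ⊆ O) :
    ∃ l : List (Set T), (∀ G ∈ l, IsOpen G ∧ P G) ∧ A ⊆ ⋃ G ∈ l, G := by
  classical
  choose! G hG using hP
  obtain ⟨t, ht, hc⟩ := hA.elim_nhds_subcover G fun x hx =>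
    (hG x (hAO hx)).2.1.mem_nhds (hG x (hAO hx)).1
  refine ⟨t.toList.map G, fun U hU => ?_, fun x hx => ?_⟩
  · obtain ⟨x, hx, rfl⟩ := List.mem_map.1 hU
    exact (hG x (hAO (ht x (Finset.mem_toList.1 hx)))).2
  · obtain ⟨y, hy, hxy⟩ := mem_iUnion₂.1 (hc hx)
    exact mem_iUnion₂.2 ⟨G y, List.mem_map.2 ⟨y, Finset.mem_toList.2 hy, rfl⟩, hxy⟩

theorem union_cons {T : Type} (G : Set T) (l : List (Set T)) :
    ⋃ U ∈ G :: l, U = G ∪ ⋃ U ∈ l, U := by
  simp only [List.mem_cons, iUnion_iUnion_eq_or_left]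

theorem ind (h1 : S_N1) {O : Set D} {p : D → W →L[ℂ] W} (hd : finrank ℝ D ≤ finrank ℝ F)
    (l : List (Set D)) : (∀ G ∈ l, IsOpen G ∧ G ⊆ O ∧ Chart F p G) → ∀ (A : Set D) (s : D → W),
    Sect O p s → IsCompact A → A ⊆ ⋃ G ∈ l, G → (∀ z ∈ O, z ∉ A → s z = 0 → NiceAt p s z) →
    ∃ t, Rep O p s t := by
  induction l with
  | nil =>
    intro _ A s hs _ hA hn
    exact ⟨s, hs, Off.refl _ _ _, fun z hz h0 => hn z hz (fun h => by simpa using hA h) h0⟩
  | cons G l ih =>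
    intro hl A s hs hA hAl hn
    obtain ⟨hG, hGO, hc⟩ := hl G List.mem_cons_self
    have hU : IsOpen (⋃ U ∈ l, U) := isOpen_biUnion fun U hU => (hl U (List.mem_cons_of_mem _ hU)).1
    rw [union_cons] at hAl
    obtain ⟨B, A₁, hB, hA₁, hBG, hAU, rfl⟩ := hA.binary_compact_cover hG hU hAl
    obtain ⟨C, hC, hAC, hCU⟩ := exists_compact_between hA₁ hU hAU
    obtain ⟨t, ht, off, tn⟩ := rel h1 hs hd hc hGO (isOpen_interior (s := C)).isClosed_compl hB hBG
      fun z hz hzR hzB => hn z hz fun h => h.elim hzB fun h => hzR (hAC h)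
    obtain ⟨u, hu, off', un⟩ := ih (fun U hU => hl U (List.mem_cons_of_mem _ hU)) C t ht hC hCU
      fun z hz hzC => tn z hz fun h => hzC (interior_subset h)
    exact ⟨u, hu, off'.trans (off.mono le_rfl hGO), un⟩

theorem sNOf : S_NOf := by
  intro h1 hC D W _ _ _ _ _ _ _ _ O p s k hs hk hd
  obtain ⟨l, hl, hc⟩ := cover (fun G => G ⊆ O ∧ Chart (Fin k → ℂ) p G) (O := O) (fun x hx => by
    obtain ⟨G, a, b, c⟩ := hC D W (Fin k → ℂ) O p hs.op hs.pc hs.idem x hx (by simp [hk x hx])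
    exact ⟨G, a, c.1, b, c⟩) hs.cpt fun _ hx => hx.1
  refine ind (F := Fin k → ℂ) h1 (hd.trans_eq ?_) l hl _ s hs hs.cpt hc
    fun z hz hz' h0 => (hz' ⟨hz, h0⟩).elim
  simp [Module.finrank_pi_fintype, mul_comm]

end Pool.Agent.MP_826def_gt.BE
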