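import Mathlib

/-! Approximation of a continuous map on a compact set by a smooth map with regular zeros. -/

namespace Pool.Agent.MP_826def_gt.BE

open Set Metric MeasureTheory Module

variable {D E : Type} [NormedAddCommGroup D] [NormedSpace ℝ D] [FiniteDimensional ℝ D]
  [NormedAddCommGroup E] [NormedSpace ℝ E] [FiniteDimensional ℝ E]

/-- A cut off function times a function that is continuous on an open set is continuous. -/
theorem cont_cut {X F : Type} [TopologicalSpace X] [NormedAddCommGroup F] [NormedSpace ℝ F]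
    {g : X → F} {U : Set X} (hU : IsOpen U) (hg : ContinuousOn g U) {φ : X → ℝ}
    (hφ : Continuous φ) (hs : tsupport φ ⊆ U) : Continuous fun x => φ x • g x := by
  refine continuous_iff_continuousAt.2 fun x => ?_
  by_cases hx : x ∈ tsupport φ
  · exact hφ.continuousAt.smul (hg.continuousAt (hU.mem_nhds (hs hx)))
  · refine (continuousAt_const (y := (0 : F))).congr ?_
    filter_upwards [notMem_tsupport_iff_eventuallyEq.1 hx] with y hy
    rw [hy, Pi.zero_apply, zero_smul]

/-- Small regular values. -/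
theorem small_regular (hd : finrank ℝ D ≤ finrank ℝ E) {G : D → E} (hG : Differentiable ℝ G)
    {δ : ℝ} (hδ : 0 < δ) :
    ∃ y : E, ‖y‖ < δ ∧ ∀ x, G x = y → Function.Surjective (fderiv ℝ G x) := by
  obtain ⟨i, hi⟩ := (finrank_le_iff_exists_linearMap (R := ℝ) (M := D) (M' := E)).1 hd
  obtain ⟨L₀, hL₀⟩ := i.exists_leftInverse_of_injective (LinearMap.ker_eq_bot.2 hi)
  let L : E →L[ℝ] D := LinearMap.toContinuousLinearMap L₀
  have hL : ∀ x, L (i x) = x := fun x => congrArg (fun q : D →ₗ[ℝ] D => q x) hL₀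
  borelize E
  let μ : Measure E := Measure.addHaar
  let S : Set E := {e | (fderiv ℝ G (L e) ∘L L).det = 0}
  have h0 : μ ((fun e => G (L e)) '' S) = 0 :=
    addHaar_image_eq_zero_of_det_fderivWithin_eq_zero μ (f' := fun e => fderiv ℝ G (L e) ∘L L)
      (fun e _ => ((hG (L e)).hasFDerivAt.comp e L.hasFDerivAt).hasFDerivWithinAt) fun _ he => he
  have h1 : ¬ ball (0 : E) δ ⊆ (fun e => G (L e)) '' S := fun h =>
    (measure_ball_pos μ 0 hδ).ne' (measure_mono_null h h0)
  obtain ⟨y, hy, hyS⟩ := not_subset.1 h1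
  refine ⟨y, mem_ball_zero_iff.1 hy, fun x hx => ?_⟩
  have h2 : (fderiv ℝ G x ∘L L).det ≠ 0 := fun h =>
    hyS ⟨i x, by simpa only [S, mem_ofPred_eq, hL] using h, by simp only [hL, hx]⟩
  have h3 : Function.Surjective (fderiv ℝ G x ∘L L) :=
    ((fderiv ℝ G x ∘L L).toContinuousLinearEquivOfDetNeZero h2).surjective
  exact Function.Surjective.of_comp (g := L) h3

theorem reg_approx (hd : finrank ℝ D ≤ finrank ℝ E) {g : D → E} {U K : Set D} (hU : IsOpen U)
    (hg : ContinuousOn g U) (hK : IsCompact K) (hKU : K ⊆ U) {δ : ℝ} (hδ : 0 < δ) :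
    ∃ g' : D → E, ContDiff ℝ 1 g' ∧ (∀ x ∈ K, ‖g' x - g x‖ < δ) ∧
      ∀ x, g' x = 0 → Function.Surjective (fderiv ℝ g' x) := by
  obtain ⟨φ, h1, -, hs, -⟩ := exists_continuousMap_one_of_isCompact_subset_isOpen hK hU hKU
  obtain ⟨G, hG, hc, -⟩ := (cont_cut hU hg φ.continuous hs).exists_contDiff_approx 1
    (ε := fun _ => δ / 2) continuous_const fun _ => half_pos hδ
  have hG1 : ContDiff ℝ 1 G := by exact_mod_cast hG
  obtain ⟨y, hy, hr⟩ := small_regular hd (hG1.differentiable one_ne_zero) (half_pos hδ)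
  refine ⟨fun x => G x - y, hG1.sub contDiff_const, fun x hx => ?_, fun x hx => ?_⟩
  · have h2 := hc x
    rw [dist_eq_norm, h1 hx, Pi.one_apply, one_smul] at h2
    have : G x - y - g x = (G x - g x) - y := by abel
    rw [this]
    exact (norm_sub_le _ _).trans_lt (by linarith)
  · rw [fderiv_sub_const]
    exact hr x (sub_eq_zero.1 hx)

end Pool.Agent.MP_826def_gt.BE
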