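import Mathlib

/-!
Sections of fields of idempotents over open subsets of real vector spaces: general position and
the degree.
-/

namespace Pool.Agent.MP_826def_gt.BE

open Set Module

noncomputable section

section Defs

variable {D W F : Type} [NormedAddCommGroup D] [NormedSpace ℝ D] [NormedAddCommGroup W]
  [NormedSpace ℂ W] [NormedSpace ℝ W] [NormedAddCommGroup F] [NormedSpace ℂ F]

/-- A section `s` with compact zero set of the bundle `range p` over the open set `O`. -/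
structure Sect {T : Type} [TopologicalSpace T] (O : Set T) (p : T → W →L[ℂ] W) (s : T → W) :
    Prop where
  op : IsOpen O
  pc : ContinuousOn p O
  idem : ∀ x ∈ O, ∀ w, p x (p x w) = p x w
  sc : ContinuousOn s O
  mem : ∀ x ∈ O, p x (s x) = s x
  cpt : IsCompact {x | x ∈ O ∧ s x = 0}

/-- The rank is `k` on `O`. -/
def Rk {T : Type} (O : Set T) (p : T → W →L[ℂ] W) (k : ℕ) : Prop :=
  ∀ x ∈ O, finrank ℂ (LinearMap.range (p x : W →ₗ[ℂ] W)) = k

/-- The section has a derivative at `z` that is a bijection onto the fibre. -/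
def NiceAt (p : D → W →L[ℂ] W) (s : D → W) (z : D) : Prop :=
  ∃ B : D →L[ℝ] W, HasFDerivAt s B z ∧ Function.Injective B ∧ range B = range (p z)

/-- All zeros are nondegenerate. -/
def Nice (O : Set D) (p : D → W →L[ℂ] W) (s : D → W) : Prop := ∀ z ∈ O, s z = 0 → NiceAt p s z

/-- Equality outside a compact subset of `G`. -/
def Off {T A : Type} [TopologicalSpace T] (O G : Set T) (s t : T → A) : Prop :=
  ∃ K, IsCompact K ∧ K ⊆ G ∧ ∀ x ∈ O, x ∉ K → s x = t x

/-- `t` is a nondegenerate section that equals `s` outside a compact set. -/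
def Rep (O : Set D) (p : D → W →L[ℂ] W) (s t : D → W) : Prop :=
  Sect O p t ∧ Off O O t s ∧ Nice O p t

/-- A trivialisation over the open set `G` with fibre `F`. -/
def Chart (F : Type) [NormedAddCommGroup F] [NormedSpace ℂ F] {T : Type} [TopologicalSpace T]
    (p : T → W →L[ℂ] W) (G : Set T) : Prop :=
  IsOpen G ∧ ∃ (τ : T → W →L[ℂ] F) (σ : T → F →L[ℂ] W), ContinuousOn τ G ∧ ContinuousOn σ G ∧
    (∀ x ∈ G, ∀ y, τ x (σ x y) = y) ∧ ∀ x ∈ G, ∀ w, σ x (τ x w) = p x w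

variable {V : Type} [NormedAddCommGroup V] [NormedSpace ℂ V] [NormedSpace ℝ V]
  [IsScalarTower ℝ ℂ V] [IsScalarTower ℝ ℂ W]

/-- The sign of a real linear bijection from `V` onto a complex subspace of `W`. -/
def ld (B : V →L[ℝ] W) : ℤ := by
  classical
  exact if ∃ j : W →L[ℂ] V, 0 < ((j.restrictScalars ℝ).comp B).det then 1 else -1

/-- The sum of the signs of the zeros. -/
def dsum (O : Set V) (s : V → W) : ℤ := ∑ᶠ z ∈ {x | x ∈ O ∧ s x = 0}, ld (fderiv ℝ s z)

/-- The degree of a section. -/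
def deg (O : Set V) (p : V → W →L[ℂ] W) (s : V → W) : ℤ := by
  classical
  exact if h : ∃ t, Rep O p s t then dsum O h.choose else 0

end Defs

/-- General position in a chart. -/
def S_N1 : Prop :=
  ∀ (D F : Type) [NormedAddCommGroup D] [NormedSpace ℝ D] [FiniteDimensional ℝ D]
    [NormedAddCommGroup F] [NormedSpace ℝ F] [FiniteDimensional ℝ F] (f : D → F) (Ω R : Set D),
    finrank ℝ D ≤ finrank ℝ F → IsOpen Ω → IsClosed R → ContinuousOn f Ω →
    IsCompact {x | x ∈ Ω ∧ x ∈ R ∧ f x = 0} →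
    ∃ g : D → F, ContinuousOn g Ω ∧ Off univ Ω g f ∧
      ∀ z ∈ Ω, z ∈ R → g z = 0 → ∃ A : D →L[ℝ] F, HasFDerivAt g A z ∧ Function.Bijective A

/-- The sum of the signs of the Jacobians depends only on the values outside a compact set. -/
def S_B0 : Prop :=
  ∀ (V : Type) [NormedAddCommGroup V] [NormedSpace ℝ V] [FiniteDimensional ℝ V] (f g : V → V)
    (Ω : Set V), IsOpen Ω → ContinuousOn f Ω → ContinuousOn g Ω → Off Ω Ω f g →
    {x | x ∈ Ω ∧ f x = 0}.Finite → {x | x ∈ Ω ∧ g x = 0}.Finite →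
    (∀ z ∈ Ω, f z = 0 → DifferentiableAt ℝ f z ∧ (fderiv ℝ f z).det ≠ 0) →
    (∀ z ∈ Ω, g z = 0 → DifferentiableAt ℝ g z ∧ (fderiv ℝ g z).det ≠ 0) →
    ∑ᶠ z ∈ {x | x ∈ Ω ∧ f x = 0}, (SignType.sign (fderiv ℝ f z).det : ℤ) =
      ∑ᶠ z ∈ {x | x ∈ Ω ∧ g x = 0}, (SignType.sign (fderiv ℝ g z).det : ℤ)

/-- Invertible real linear maps with determinants of the same sign are joined by a path. -/
def S_GL : Prop :=
  ∀ (V : Type) [NormedAddCommGroup V] [NormedSpace ℝ V] [FiniteDimensional ℝ V]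
    (A B : V →L[ℝ] V), 0 < A.det * B.det → JoinedIn {C : V →L[ℝ] V | C.det ≠ 0} A B

/-- Local trivialisations exist. -/
def S_Chart : Prop :=
  ∀ (T W F : Type) [TopologicalSpace T] [NormedAddCommGroup W] [NormedSpace ℂ W]
    [FiniteDimensional ℂ W] [NormedAddCommGroup F] [NormedSpace ℂ F] [FiniteDimensional ℂ F]
    (O : Set T) (p : T → W →L[ℂ] W), IsOpen O → ContinuousOn p O →
    (∀ x ∈ O, ∀ w, p x (p x w) = p x w) → ∀ x ∈ O,
    finrank ℂ (LinearMap.range (p x : W →ₗ[ℂ] W)) = finrank ℂ F →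
    ∃ G, x ∈ G ∧ G ⊆ O ∧ Chart F p G

/-- General position. -/
def S_N : Prop :=
  ∀ (D W : Type) [NormedAddCommGroup D] [NormedSpace ℝ D] [FiniteDimensional ℝ D]
    [NormedAddCommGroup W] [NormedSpace ℂ W] [FiniteDimensional ℂ W] [NormedSpace ℝ W]
    [IsScalarTower ℝ ℂ W] (O : Set D) (p : D → W →L[ℂ] W) (s : D → W) (k : ℕ),
    Sect O p s → Rk O p k → finrank ℝ D ≤ 2 * k → ∃ t, Rep O p s t

/-- Two nondegenerate sections that agree outside a compact set have the same sum of signs. -/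
def S_B : Prop :=
  ∀ (V W : Type) [NormedAddCommGroup V] [NormedSpace ℂ V] [FiniteDimensional ℂ V]
    [NormedSpace ℝ V] [IsScalarTower ℝ ℂ V]
    [NormedAddCommGroup W] [NormedSpace ℂ W] [FiniteDimensional ℂ W] [NormedSpace ℝ W]
    [IsScalarTower ℝ ℂ W] (O : Set V) (p : V → W →L[ℂ] W) (s t : V → W),
    Sect O p s → Sect O p t → Rk O p (finrank ℂ V) → Nice O p s → Nice O p t → Off O O s t →
    dsum O s = dsum O t

/-- The sign can be read with any complex linear map. -/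
def S_Ld : Prop :=
  ∀ (V W : Type) [NormedAddCommGroup V] [NormedSpace ℂ V] [FiniteDimensional ℂ V]
    [NormedSpace ℝ V] [IsScalarTower ℝ ℂ V]
    [NormedAddCommGroup W] [NormedSpace ℂ W] [FiniteDimensional ℂ W] [NormedSpace ℝ W]
    [IsScalarTower ℝ ℂ W] (B : V →L[ℝ] W) (q : W →L[ℂ] W), Function.Injective B →
    range B = range q →
    (∃ j : W →L[ℂ] V, ((j.restrictScalars ℝ).comp B).det ≠ 0) ∧
    ∀ j : W →L[ℂ] V, ((j.restrictScalars ℝ).comp B).det ≠ 0 →
      ld B = (SignType.sign ((j.restrictScalars ℝ).comp B).det : ℤ)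

/-- Properties of the degree for a fixed space `V`. -/
def S_D1 : Prop :=
  ∀ (V W : Type) [NormedAddCommGroup V] [NormedSpace ℂ V] [FiniteDimensional ℂ V]
    [NormedSpace ℝ V] [IsScalarTower ℝ ℂ V]
    [NormedAddCommGroup W] [NormedSpace ℂ W] [FiniteDimensional ℂ W] [NormedSpace ℝ W]
    [IsScalarTower ℝ ℂ W] (O : Set V) (p : V → W →L[ℂ] W) (s : V → W),
    Sect O p s → Rk O p (finrank ℂ V) →
    (∀ t, Rep O p s t → deg O p s = dsum O t) ∧
    (∀ t, Sect O p t → Off O O s t → deg O p s = deg O p t) ∧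
    (∀ O' p' s', IsOpen O' → O' ⊆ O → (∀ x ∈ O, s x = 0 → x ∈ O') → EqOn p' p O' →
      EqOn s' s O' → deg O' p' s' = deg O p s) ∧
    (∀ O₁ O₂, IsOpen O₁ → IsOpen O₂ → Disjoint O₁ O₂ → O₁ ⊆ O → O₂ ⊆ O →
      (∀ x ∈ O, s x = 0 → x ∈ O₁ ∪ O₂) → deg O p s = deg O₁ p s + deg O₂ p s) ∧
    ∀ (W' : Type) [NormedAddCommGroup W'] [NormedSpace ℂ W'] [FiniteDimensional ℂ W']
      [NormedSpace ℝ W'] [IsScalarTower ℝ ℂ W'] (p' : V → W' →L[ℂ] W') (s' : V → W')
      (u : V → W →L[ℂ] W') (v : V → W' →L[ℂ] W), ContinuousOn u O → ContinuousOn v O →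
      (∀ x ∈ O, ∀ w, v x (u x w) = p x w) → (∀ x ∈ O, ∀ w, u x (v x w) = p' x w) →
      (∀ x ∈ O, ∀ w, u x (p x w) = u x w) → (∀ x ∈ O, s' x = u x (s x)) →
      deg O p' s' = deg O p s

/-- Change of the space `V`: complex linear isomorphisms and stabilisation. -/
def S_D2 : Prop :=
  ∀ (V W : Type) [NormedAddCommGroup V] [NormedSpace ℂ V] [FiniteDimensional ℂ V]
    [NormedSpace ℝ V] [IsScalarTower ℝ ℂ V]
    [NormedAddCommGroup W] [NormedSpace ℂ W] [FiniteDimensional ℂ W] [NormedSpace ℝ W]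
    [IsScalarTower ℝ ℂ W] (O : Set V) (p : V → W →L[ℂ] W) (s : V → W),
    Sect O p s → Rk O p (finrank ℂ V) →
    ∀ (E : Type) [NormedAddCommGroup E] [NormedSpace ℂ E] [FiniteDimensional ℂ E]
      [NormedSpace ℝ E] [IsScalarTower ℝ ℂ E],
      (∀ L : E ≃L[ℂ] V, deg (L ⁻¹' O) (fun x => p (L x)) (fun x => s (L x)) = deg O p s) ∧
      deg {z : V × E | z.1 ∈ O} (fun z => (p z.1).prodMap (ContinuousLinearMap.id ℂ E))
        (fun z => (s z.1, z.2)) = deg O p s

/-- Homotopy invariance. -/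
def S_D3 : Prop :=
  ∀ (V W T : Type) [NormedAddCommGroup V] [NormedSpace ℂ V] [FiniteDimensional ℂ V]
    [NormedSpace ℝ V] [IsScalarTower ℝ ℂ V]
    [NormedAddCommGroup W] [NormedSpace ℂ W] [FiniteDimensional ℂ W] [NormedSpace ℝ W]
    [IsScalarTower ℝ ℂ W] [TopologicalSpace T] [T2Space T] [PreconnectedSpace T]
    (O : Set (T × V)) (p : T × V → W →L[ℂ] W) (s : T × V → W),
    Sect O p s → Rk O p (finrank ℂ V) → ∀ a b : T,
    deg {x | (a, x) ∈ O} (fun x => p (a, x)) (fun x => s (a, x)) =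
      deg {x | (b, x) ∈ O} (fun x => p (b, x)) (fun x => s (b, x))

def S_NOf : Prop := S_N1 → S_Chart → S_N

def S_BOf : Prop := S_N1 → S_Chart → S_B0 → S_Ld → S_B

def S_D1Of : Prop := S_N → S_B → S_Ld → S_D1

def S_D2Of : Prop := S_N → S_Ld → S_D1 → S_D2

def S_D3Of : Prop := S_D1 → S_D3

end

end Pool.Agent.MP_826def_gt.BE
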